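import Mathlib

/-! # Maps out of quotients, localisations and polynomial rings -/

set_option autoImplicit false

namespace Pool.Agent.H43.TateC

variable {k A B : Type} [CommRing k] [CommRing A] [Algebra k A] [CommRing B] [Algebra k B]

/-- maps out of `A / (s)` -/
noncomputable def qLift (s : A) (f : A →ₐ[k] B) (h : f s = 0) :
    A ⧸ Ideal.span {s} →ₐ[k] B :=
  Ideal.Quotient.liftₐ _ f fun a ha => by
    obtain ⟨c, rfl⟩ := Ideal.mem_span_singleton'.1 ha
    rw [map_mul, h, mul_zero]

theorem qLift_mk (s : A) (f : A →ₐ[k] B) (h : f s = 0) (a : A) :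
    qLift s f h (Ideal.Quotient.mk _ a) = f a := rfl

theorem q_ext {I : Ideal A} {f g : A ⧸ I →ₐ[k] B}
    (h : f.comp (Ideal.Quotient.mkₐ k I) = g.comp (Ideal.Quotient.mkₐ k I)) : f = g := by
  ext x
  obtain ⟨a, rfl⟩ := Ideal.Quotient.mk_surjective x
  exact DFunLike.congr_fun h a

/-- maps out of `A[1/s]` -/
noncomputable def lLift (s : A) (f : A →ₐ[k] B) (h : IsUnit (f s)) :
    Localization.Away s →ₐ[k] B :=
  IsLocalization.liftAlgHom (M := Submonoid.powers s) (f := f) (by
    rintro ⟨_, n, rfl⟩
    simp only [map_pow]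
    exact h.pow n)

theorem lLift_alg (s : A) (f : A →ₐ[k] B) (h : IsUnit (f s)) (a : A) :
    lLift s f h (algebraMap A _ a) = f a := by
  unfold lLift
  rw [IsLocalization.liftAlgHom_apply]
  exact IsLocalization.lift_eq _ _

theorem l_ext {s : A} {f g : Localization.Away s →ₐ[k] B}
    (h : ∀ a : A, f (algebraMap A _ a) = g (algebraMap A _ a)) : f = g := by
  apply AlgHom.coe_ringHom_injective
  apply IsLocalization.ringHom_ext (Submonoid.powers s)
  ext a
  exact h a

/-- maps out of `A[X]` -/
noncomputable def pLift (f : A →ₐ[k] B) (b : B) : Polynomial A →ₐ[k] B :=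
  Polynomial.eval₂AlgHom f b fun _ => Commute.all _ _

theorem pLift_C (f : A →ₐ[k] B) (b : B) (a : A) : pLift f b (Polynomial.C a) = f a := by
  unfold pLift
  simp

theorem pLift_X (f : A →ₐ[k] B) (b : B) : pLift f b Polynomial.X = b := by
  unfold pLift
  simp

theorem p_ext {f g : Polynomial A →ₐ[k] B} (h : ∀ a, f (Polynomial.C a) = g (Polynomial.C a))
    (hX : f Polynomial.X = g Polynomial.X) : f = g :=
  Polynomial.algHom_ext' (AlgHom.ext h) hX

/-- two maps out of a polynomial ring which agree on the variables -/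
theorem mv_congr {σ : Type} {f g : MvPolynomial σ k →ₐ[k] B}
    (h : ∀ i, f (MvPolynomial.X i) = g (MvPolynomial.X i)) (a : MvPolynomial σ k) : f a = g a :=
  DFunLike.congr_fun (MvPolynomial.algHom_ext h) a

/-- the localisation map as a map of algebras -/
noncomputable def toL (k : Type) {A : Type} [CommRing k] [CommRing A] [Algebra k A] (s : A) :
    A →ₐ[k] Localization.Away s :=
  IsScalarTower.toAlgHom k A (Localization.Away s)

theorem toL_apply (s a : A) : toL k s a = algebraMap A (Localization.Away s) a := rfl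

theorem isUnit_toL (s : A) : IsUnit (toL k s s) := by
  rw [toL_apply]
  exact IsLocalization.map_units (Localization.Away s) ⟨s, Submonoid.mem_powers s⟩

/-- `A[1/s]` and `B[1/t]` for an isomorphism which maps `s` to a unit multiple of `t` -/
noncomputable def lEquiv (e : A ≃ₐ[k] B) (s : A) (t : B) (h : e s = t) :
    Localization.Away s ≃ₐ[k] Localization.Away t :=
  AlgEquiv.ofAlgHom
    (lLift s ((toL k t).comp e.toAlgHom) (by
      subst h
      exact isUnit_toL (k := k) _))
    (lLift t ((toL k s).comp e.symm.toAlgHom) (by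
      subst h
      simp only [AlgHom.comp_apply]
      have : e.symm.toAlgHom (e s) = s := e.symm_apply_apply s
      rw [this]
      exact isUnit_toL (k := k) _))
    (by
      apply l_ext
      intro a
      simp only [AlgHom.comp_apply, lLift_alg, toL_apply]
      have : e.toAlgHom (e.symm.toAlgHom a) = a := e.apply_symm_apply a
      rw [this]
      rfl)
    (by
      apply l_ext
      intro a
      simp only [AlgHom.comp_apply, lLift_alg, toL_apply]
      have : e.symm.toAlgHom (e.toAlgHom a) = a := e.symm_apply_apply a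
      rw [this]
      rfl)

/-- `A / (s)` and `B / (t)` for an isomorphism which maps `s` to `t` -/
noncomputable def qEquiv (e : A ≃ₐ[k] B) (s : A) (t : B) (h : e s = t) :
    (A ⧸ Ideal.span {s}) ≃ₐ[k] (B ⧸ Ideal.span {t}) :=
  AlgEquiv.ofAlgHom
    (qLift s ((Ideal.Quotient.mkₐ k _).comp e.toAlgHom) (by
      change Ideal.Quotient.mk _ (e s) = 0
      rw [h]
      exact Ideal.Quotient.eq_zero_iff_mem.2 (Ideal.mem_span_singleton_self t)))
    (qLift t ((Ideal.Quotient.mkₐ k _).comp e.symm.toAlgHom) (by
      change Ideal.Quotient.mk _ (e.symm t) = 0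
      rw [← h, e.symm_apply_apply]
      exact Ideal.Quotient.eq_zero_iff_mem.2 (Ideal.mem_span_singleton_self s)))
    (by
      apply q_ext
      ext a
      change Ideal.Quotient.mk _ (e (e.symm a)) = _
      rw [e.apply_symm_apply]
      rfl)
    (by
      apply q_ext
      ext a
      change Ideal.Quotient.mk _ (e.symm (e a)) = _
      rw [e.symm_apply_apply]
      rfl)

end Pool.Agent.H43.TateC
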