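import Mathlib

/-! # The transcendence degree is at most the Krull dimension -/

set_option autoImplicit false

namespace Pool.Agent.H43.TateC

open MvPolynomial

theorem noether_le {k A : Type} [Field k] [CommRing A] [IsDomain A] [Algebra k A] (s d : ℕ)
    (g : MvPolynomial (Fin s) k →ₐ[k] A) (hinj : Function.Injective g)
    (hint : g.toRingHom.IsIntegral) (hdim : ringKrullDim A ≤ d) : s ≤ d := by
  let _ : Algebra (MvPolynomial (Fin s) k) A := g.toRingHom.toAlgebra
  have : Algebra.IsIntegral (MvPolynomial (Fin s) k) A := ⟨fun x => hint x⟩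
  have halg : algebraMap (MvPolynomial (Fin s) k) A = g.toRingHom := rfl
  have hs : ((s : ℕ) : WithBot ℕ∞) ≤ ringKrullDim (MvPolynomial (Fin s) k) := by
    rw [MvPolynomial.ringKrullDim_of_isNoetherianRing]
    have h0 : (0 : WithBot ℕ∞) ≤ ringKrullDim k := ringKrullDim_nonneg_of_nontrivial
    rw [Nat.card_eq_fintype_card, Fintype.card_fin]
    exact le_add_of_nonneg_left h0
  obtain ⟨l, hl⟩ := Order.le_krullDim_iff.1 hs
  obtain ⟨P, -, hP, hPl⟩ := Ideal.exists_ideal_over_prime_of_isIntegral (S := A)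
    l.head.asIdeal (⊥ : Ideal A) (by
      rw [halg, ← RingHom.ker_eq_comap_bot,
        (RingHom.injective_iff_ker_eq_bot g.toRingHom).1 hinj]
      exact bot_le)
  have := hP
  have : P.LiesOver (RelSeries.head l).asIdeal := ⟨hPl.symm⟩
  obtain ⟨L, hL, -, -⟩ := Ideal.exists_ltSeries_of_hasGoingUp (S := A) l P
  have h1 : ((s : ℕ) : WithBot ℕ∞) ≤ ringKrullDim A :=
    Order.le_krullDim_iff.2 ⟨L, by rw [hL, hl]⟩
  exact_mod_cast h1.trans hdim

theorem card_le {k B K : Type} [Field k] [CommRing B] [IsDomain B] [Algebra k B]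
    [Algebra.FiniteType k B] [Field K] [Algebra k K] [Algebra B K] [IsScalarTower k B K]
    [IsFractionRing B K] {d : ℕ} (hd : ringKrullDim B ≤ d) (s : Finset K)
    (hs : IsTranscendenceBasis k ((↑) : s → K)) : s.card ≤ d := by
  obtain ⟨r, g, hg, hint⟩ := exists_integral_inj_algHom_of_fg k B
  have hr : r ≤ d := noether_le r d g hg hint hd
  let _ : Algebra (MvPolynomial (Fin r) k) B := g.toRingHom.toAlgebra
  have i1 : Algebra.IsIntegral (MvPolynomial (Fin r) k) B := ⟨fun x => hint x⟩
  let _ : Algebra (MvPolynomial (Fin r) k) K :=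
    ((algebraMap B K).comp (algebraMap (MvPolynomial (Fin r) k) B)).toAlgebra
  have i2 : IsScalarTower (MvPolynomial (Fin r) k) B K := IsScalarTower.of_algebraMap_eq' rfl
  have i3 : IsScalarTower k (MvPolynomial (Fin r) k) B :=
    IsScalarTower.of_algebraMap_eq fun x => (g.commutes x).symm
  have i4 : IsScalarTower k (MvPolynomial (Fin r) k) K := by
    refine IsScalarTower.of_algebraMap_eq fun x => ?_
    rw [IsScalarTower.algebraMap_apply (MvPolynomial (Fin r) k) B K,
      ← IsScalarTower.algebraMap_apply k (MvPolynomial (Fin r) k) B,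
      ← IsScalarTower.algebraMap_apply k B K]
  have i5 : FaithfulSMul (MvPolynomial (Fin r) k) B :=
    (faithfulSMul_iff_algebraMap_injective _ _).2 hg
  have i6 : FaithfulSMul (MvPolynomial (Fin r) k) K := by
    rw [faithfulSMul_iff_algebraMap_injective, IsScalarTower.algebraMap_eq _ B K]
    exact (IsFractionRing.injective B K).comp hg
  have i7 : Algebra.IsAlgebraic (MvPolynomial (Fin r) k) B := Algebra.IsIntegral.isAlgebraic
  have i8 : Algebra.IsAlgebraic B K := IsLocalization.isAlgebraic K (nonZeroDivisors B)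
  have i9 : Algebra.IsAlgebraic (MvPolynomial (Fin r) k) K := Algebra.IsAlgebraic.trans _ B K
  have h1 := trdeg_add_eq k (MvPolynomial (Fin r) k) (A := K)
  rw [trdeg_eq_zero (R := MvPolynomial (Fin r) k) (A := K), add_zero, MvPolynomial.trdeg_of_isDomain] at h1
  have h2 := hs.cardinalMk_eq_trdeg
  rw [← h1] at h2
  simp only [Cardinal.mk_fin, Cardinal.lift_natCast, Cardinal.mk_fintype, Fintype.card_coe,
    Nat.cast_inj, Fintype.card_fin] at h2
  omega

end Pool.Agent.H43.TateC
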