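import Pool.Agent.H43.TateC.Gate

/-! # Polynomials as sums of words, and their trilinear forms -/

set_option autoImplicit false

namespace Pool.Agent.H43.TateC

open MvPolynomial

section

variable {k : Type} [Field k] {ξ α β : Type}

/-- `x_i`, with `x_none = 1` -/
noncomputable def xo (k : Type) [Field k] (α β : Type) (o : Option ξ) :
    MvPolynomial (Vx ξ α β) k := o.elim 1 (vx k α β)

/-- `∑ x_i y_a z_b`, with `x_none = 1` -/
noncomputable def qE (k : Type) [Field k] (E : Finset (Option ξ × α × β)) :
    MvPolynomial (Vx ξ α β) k :=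
  ∑ e ∈ E, xo k α β e.1 * vy k ξ β e.2.1 * vz k ξ α e.2.2

/-- a word in the variables `x` -/
noncomputable def wd (k : Type) [Field k] (α β : Type) (w : List ξ) : MvPolynomial (Vx ξ α β) k :=
  (w.map (vx k α β)).prod

/-- `∑ x^w y_a z_b` -/
noncomputable def qL (k : Type) [Field k] (L : List (List ξ × α × β)) :
    MvPolynomial (Vx ξ α β) k :=
  (L.map fun l => wd k α β l.1 * vy k ξ β l.2.1 * vz k ξ α l.2.2).sum

theorem up2_vx (i : ξ) : up2 k ξ α β (vx k α β i) = vx k _ _ i := by
  unfold up2 vx
  rw [rename_X]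
  rfl

theorem up2_vy (a : α) : up2 k ξ α β (vy k ξ β a) = vy k ξ _ (Sum.inl a) := by
  unfold up2 vy
  rw [rename_X]
  rfl

theorem up2_vz (b : β) : up2 k ξ α β (vz k ξ α b) = vz k ξ _ (Sum.inl b) := by
  unfold up2 vz
  rw [rename_X]
  rfl

theorem up2_xo (o : Option ξ) : up2 k ξ α β (xo k α β o) = xo k _ _ o := by
  rcases o with _ | i
  · exact map_one _
  · exact up2_vx i

theorem up2_wd (w : List ξ) : up2 k ξ α β (wd k α β w) = wd k _ _ w := by
  unfold wd
  rw [map_list_prod, List.map_map]
  congr 1
  apply List.map_congr_left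
  intro i _
  exact up2_vx i

/-- old edges -/
def upE : (Option ξ × α × β) ↪ (Option ξ × (α ⊕ Bool) × (β ⊕ Bool)) :=
  ⟨fun e => (e.1, Sum.inl e.2.1, Sum.inl e.2.2), by
    rintro ⟨o, a, b⟩ ⟨o', a', b'⟩ h
    simp only [Prod.mk.injEq, Sum.inl.injEq] at h
    simp only [Prod.mk.injEq]
    exact h⟩

/-- old words -/
def upL (L : List (List ξ × α × β)) : List (List ξ × (α ⊕ Bool) × (β ⊕ Bool)) :=
  L.map fun l => (l.1, Sum.inl l.2.1, Sum.inl l.2.2)

theorem up2_qE (E : Finset (Option ξ × α × β)) :
    up2 k ξ α β (qE k E) = qE k (E.map upE) := by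
  unfold qE
  rw [map_sum, Finset.sum_map]
  refine Finset.sum_congr rfl fun e _ => ?_
  rw [map_mul, map_mul, up2_xo, up2_vy, up2_vz]
  rfl

theorem up2_qL (L : List (List ξ × α × β)) : up2 k ξ α β (qL k L) = qL k (upL L) := by
  unfold qL upL
  rw [map_list_sum, List.map_map, List.map_map]
  congr 1
  apply List.map_congr_left
  intro l _
  simp only [Function.comp_apply, map_mul, up2_wd, up2_vy, up2_vz]

open Classical in
/-- the new edges of the gadget, without the last one -/
noncomputable def newE (E : Finset (Option ξ × α × β)) (o : Option ξ) (a : α) :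
    Finset (Option ξ × (α ⊕ Bool) × (β ⊕ Bool)) :=
  insert (o, Sum.inl a, Sum.inr true) (insert (none, Sum.inr true, Sum.inr true)
    (insert (none, Sum.inr true, Sum.inr false) (insert (none, Sum.inr false, Sum.inr false)
      (E.map upE))))

theorem mem_upE (E : Finset (Option ξ × α × β)) (o : Option ξ) (a : α ⊕ Bool) (b : β ⊕ Bool) :
    (o, a, b) ∈ E.map upE → (∃ a', a = Sum.inl a') ∧ ∃ b', b = Sum.inl b' := by
  intro h
  obtain ⟨⟨o', a', b'⟩, -, h2⟩ := Finset.mem_map.1 h
  have h3 : (o', Sum.inl a', Sum.inl b') = (o, a, b) := h2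
  simp only [Prod.mk.injEq] at h3
  exact ⟨⟨a', h3.2.1.symm⟩, ⟨b', h3.2.2.symm⟩⟩

theorem qE_newE (E : Finset (Option ξ × α × β)) (o : Option ξ) (a : α) :
    qE k (newE E o a) = xo k _ _ o * vy k ξ _ (Sum.inl a) * vz k ξ _ (Sum.inr true) +
      (vy k ξ _ (Sum.inr true) * vz k ξ _ (Sum.inr true) +
      (vy k ξ _ (Sum.inr true) * vz k ξ _ (Sum.inr false) +
      (vy k ξ _ (Sum.inr false) * vz k ξ _ (Sum.inr false) + qE k (E.map upE)))) := by
  classical
  have hn : xo k (α ⊕ Bool) (β ⊕ Bool) (none : Option ξ) = 1 := rfl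
  unfold newE
  unfold qE
  rw [Finset.sum_insert, Finset.sum_insert, Finset.sum_insert, Finset.sum_insert]
  · simp only [hn, one_mul]
  · intro h
    obtain ⟨⟨a', ha⟩, -⟩ := mem_upE _ _ _ _ h
    cases ha
  · simp only [Finset.mem_insert, Prod.mk.injEq, not_or]
    refine ⟨by simp, ?_⟩
    intro h
    obtain ⟨⟨a', ha⟩, -⟩ := mem_upE _ _ _ _ h
    cases ha
  · simp only [Finset.mem_insert, Prod.mk.injEq, not_or]
    refine ⟨by simp, by simp, ?_⟩
    intro h
    obtain ⟨⟨a', ha⟩, -⟩ := mem_upE _ _ _ _ h
    cases ha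
  · simp only [Finset.mem_insert, Prod.mk.injEq, not_or]
    refine ⟨by simp, by simp, by simp, ?_⟩
    intro h
    obtain ⟨-, ⟨b', hb⟩⟩ := mem_upE _ _ _ _ h
    cases hb

open Classical in
theorem qE_newE' (E : Finset (Option ξ × α × β)) (o : Option ξ) (a : α) (b : β) :
    qE k (insert (none, Sum.inr false, Sum.inl b) (newE E o a)) =
      vy k ξ _ (Sum.inr false) * vz k ξ _ (Sum.inl b) + qE k (newE E o a) := by
  have hn : xo k (α ⊕ Bool) (β ⊕ Bool) (none : Option ξ) = 1 := rfl
  unfold qE
  rw [Finset.sum_insert]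
  · rw [hn, one_mul]
  · unfold newE
    simp only [Finset.mem_insert, Prod.mk.injEq, not_or]
    refine ⟨by simp, by simp, by simp, by simp, ?_⟩
    intro h
    obtain ⟨⟨a', ha⟩, -⟩ := mem_upE _ _ _ _ h
    cases ha

/-- an empty word -/
theorem gate_nil (E : Finset (Option ξ × α × β)) (a : α) (b : β)
    (L : List (List ξ × α × β)) : ∃ E' : Finset (Option ξ × (α ⊕ Bool) × (β ⊕ Bool)),
      gate (qE k E + qL k L) (vy k ξ β a) (vz k ξ α b) = qE k E' + qL k (upL L) := by
  classical
  refine ⟨insert (none, Sum.inr false, Sum.inl b) (newE E none a), ?_⟩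
  have hn : xo k (α ⊕ Bool) (β ⊕ Bool) (none : Option ξ) = 1 := rfl
  rw [qE_newE', qE_newE]
  unfold gate
  rw [map_add, up2_qE, up2_qL, up2_vy, up2_vz, hn]
  ring

/-- a longer word -/
theorem gate_cons (E : Finset (Option ξ × α × β)) (i : ξ) (w : List ξ) (a : α) (b : β)
    (L : List (List ξ × α × β)) : ∃ E' : Finset (Option ξ × (α ⊕ Bool) × (β ⊕ Bool)),
      gate (qE k E + qL k L) (vx k α β i * vy k ξ β a) (wd k α β w * vz k ξ α b) =
        qE k E' + qL k ((w, Sum.inr false, Sum.inl b) :: upL L) := by
  refine ⟨newE E (some i) a, ?_⟩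
  have hs : xo k (α ⊕ Bool) (β ⊕ Bool) (some i) = vx k _ _ i := rfl
  have hL : qL k ((w, (Sum.inr false : α ⊕ Bool), (Sum.inl b : β ⊕ Bool)) :: upL L) =
      wd k _ _ w * vy k ξ _ (Sum.inr false) * vz k ξ _ (Sum.inl b) + qL k (upL L) := by
    unfold qL
    rw [List.map_cons, List.sum_cons]
  rw [qE_newE, hL]
  unfold gate
  rw [map_add, map_mul, map_mul, up2_qE, up2_qL, up2_vy, up2_vz, up2_vx, up2_wd, hs]
  ring

theorem qL_cons (w : List ξ) (a : α) (b : β) (L : List (List ξ × α × β)) :
    qL k ((w, a, b) :: L) = wd k α β w * vy k ξ β a * vz k ξ α b + qL k L := by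
  unfold qL
  rw [List.map_cons, List.sum_cons]

/-- every polynomial is a sum of words -/
theorem exists_words {n : ℕ} [Fact n.Prime] (F : MvPolynomial ξ (ZMod n)) :
    ∃ W : List (List ξ), F = (W.map fun w => (w.map X).prod).sum := by
  induction F using MvPolynomial.induction_on with
  | C c =>
    refine ⟨List.replicate c.val [], ?_⟩
    rw [List.map_replicate, List.sum_replicate, List.map_nil, List.prod_nil, nsmul_eq_mul, mul_one]
    have h := congrArg (C (σ := ξ)) (ZMod.natCast_zmod_val c)
    rw [← h, map_natCast]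
  | add F G hF hG =>
    obtain ⟨W, rfl⟩ := hF
    obtain ⟨W', rfl⟩ := hG
    exact ⟨W ++ W', by rw [List.map_append, List.sum_append]⟩
  | mul_X F i hF =>
    obtain ⟨W, rfl⟩ := hF
    refine ⟨W.map (fun w => i :: w), ?_⟩
    rw [List.map_map, ← List.sum_map_mul_right]
    congr 1
    apply List.map_congr_left
    intro w _
    simp only [Function.comp_apply, List.map_cons, List.prod_cons]
    ring

end

variable {p : ℕ} [Fact p.Prime] {T : Theory p} {ξ : Type} [Finite ξ]

/-- number of words plus total length -/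
def msr {α β : Type} (L : List (List ξ × α × β)) : ℕ := (L.map fun l => l.1.length + 1).sum

theorem msr_upL {α β : Type} (L : List (List ξ × α × β)) : msr (upL L) = msr L := by
  unfold msr upL
  rw [List.map_map]
  rfl

theorem tate_words (H : ∀ (α β : Type) [Finite α] [Finite β] (E : Finset (Option ξ × α × β)),
      T.Tate (Hyp (qE (ZMod p) E))) :
    ∀ (N : ℕ) (α β : Type) [Finite α] [Finite β] (E : Finset (Option ξ × α × β))
      (L : List (List ξ × α × β)), msr L ≤ N → T.Tate (Hyp (qE (ZMod p) E + qL (ZMod p) L)) := by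
  intro N
  induction N with
  | zero =>
    intro α β _ _ E L h
    rcases L with _ | ⟨l, L⟩
    · have h1 : qL (ZMod p) ([] : List (List ξ × α × β)) = 0 := rfl
      rw [h1, add_zero]
      exact H α β E
    · exfalso
      unfold msr at h
      rw [List.map_cons, List.sum_cons] at h
      omega
  | succ N ih =>
    intro α β _ _ E L h
    rcases L with _ | ⟨⟨w, a, b⟩, L⟩
    · have h1 : qL (ZMod p) ([] : List (List ξ × α × β)) = 0 := rfl
      rw [h1, add_zero]
      exact H α β E
    · have hm : msr ((w, a, b) :: L) = w.length + 1 + msr L := by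
        unfold msr
        rw [List.map_cons, List.sum_cons]
      rw [hm] at h
      rcases w with _ | ⟨i, w⟩
      · obtain ⟨E', hE'⟩ := gate_nil (k := ZMod p) E a b L
        have h1 := ih (α ⊕ Bool) (β ⊕ Bool) E' (upL L) (by rw [msr_upL]; omega)
        rw [← hE'] at h1
        have h2 := h1.of_gate
        have h3 : qE (ZMod p) E + qL (ZMod p) (([], a, b) :: L) =
            qE (ZMod p) E + qL (ZMod p) L + vy (ZMod p) ξ β a * vz (ZMod p) ξ α b := by
          rw [qL_cons]
          unfold wd
          rw [List.map_nil, List.prod_nil]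
          ring
        rw [h3]
        exact h2
      · obtain ⟨E', hE'⟩ := gate_cons (k := ZMod p) E i w a b L
        have h1 := ih (α ⊕ Bool) (β ⊕ Bool) E' ((w, Sum.inr false, Sum.inl b) :: upL L) (by
          have : msr ((w, (Sum.inr false : α ⊕ Bool), (Sum.inl b : β ⊕ Bool)) :: upL L) =
              w.length + 1 + msr (upL L) := by
            unfold msr
            rw [List.map_cons, List.sum_cons]
          rw [this, msr_upL]
          rw [List.length_cons] at h
          omega)
        rw [← hE'] at h1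
        have h2 := h1.of_gate
        have h3 : qE (ZMod p) E + qL (ZMod p) ((i :: w, a, b) :: L) =
            qE (ZMod p) E + qL (ZMod p) L + vx (ZMod p) α β i * vy (ZMod p) ξ β a *
              (wd (ZMod p) α β w * vz (ZMod p) ξ α b) := by
          rw [qL_cons]
          unfold wd
          rw [List.map_cons, List.prod_cons]
          ring
        rw [h3]
        exact h2

/-- remove a factor which is a new variable -/
theorem Theory.Tate.of_mul_X {σ : Type} [Finite σ] {F : MvPolynomial σ (ZMod p)}
    (h : T.Tate (Hyp (X none * rename some F : MvPolynomial (Option σ) (ZMod p)))) :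
    T.Tate (Hyp F) := by
  refine h.of_hom (fun _ => False) ?_
  have h1 : theta (fun _ : σ => False) (ZMod p) = AlgHom.id _ _ := by
    apply algHom_ext
    intro i
    rcases i with _ | i
    · rw [theta_none, AlgHom.id_apply]
    · rw [theta_some, if_neg id, AlgHom.id_apply]
  rw [h1, AlgHom.id_apply]

/-- all hypersurfaces in the variables `x` -/
theorem tate_hyp_x (H : ∀ (α β : Type) [Finite α] [Finite β] (E : Finset (Option ξ × α × β)),
      T.Tate (Hyp (qE (ZMod p) E))) (F : MvPolynomial ξ (ZMod p)) : T.Tate (Hyp F) := by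
  classical
  obtain ⟨W, hW⟩ := exists_words F
  have h1 := tate_words H _ Unit Unit ∅ (W.map fun w => (w, (), ())) le_rfl
  apply Theory.Tate.of_mul_X
  apply Theory.Tate.of_mul_X
  -- the bijection of the variables
  let e : Vx ξ Unit Unit ≃ Option (Option ξ) :=
    { toFun := Sum.elim (fun i => some (some i)) (Sum.elim (fun _ => none) (fun _ => some none))
      invFun := fun o => o.elim (Sum.inr (Sum.inl ()))
        (fun o => o.elim (Sum.inr (Sum.inr ())) Sum.inl)
      left_inv := by rintro (i | a | b) <;> rfl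
      right_inv := by rintro (_ | _ | i) <;> rfl }
  have h2 := h1.equiv (renameEquiv (ZMod p) e)
  have h3 : (renameEquiv (ZMod p) e) (qE (ZMod p) (∅ : Finset (Option ξ × Unit × Unit)) +
      qL (ZMod p) (W.map fun w => (w, (), ()))) =
      X none * rename some (X none * rename some F) := by
    rw [renameEquiv_apply]
    unfold qE qL
    rw [Finset.sum_empty, zero_add, map_list_sum, List.map_map, List.map_map, hW, map_mul,
      map_list_sum, map_list_sum, List.map_map, List.map_map, rename_X,
      ← List.sum_map_mul_left, ← List.sum_map_mul_left]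
    congr 1
    apply List.map_congr_left
    intro w _
    simp only [Function.comp_apply, map_mul]
    unfold wd vy vz vx
    rw [map_list_prod, map_list_prod, map_list_prod, List.map_map, List.map_map, List.map_map,
      rename_X, rename_X]
    have h4 : (w.map ((rename ⇑e : MvPolynomial (Vx ξ Unit Unit) (ZMod p) →ₐ[ZMod p] _) ∘
        fun i => X (Sum.inl i))) = w.map ((rename some : MvPolynomial (Option ξ) (ZMod p) →ₐ[ZMod p] _)
          ∘ ((rename some : MvPolynomial ξ (ZMod p) →ₐ[ZMod p] _) ∘ X)) := by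
      apply List.map_congr_left
      intro i _
      simp only [Function.comp_apply, rename_X]
      rfl
    have h5 : e (Sum.inr (Sum.inl ())) = none := rfl
    have h6 : e (Sum.inr (Sum.inr ())) = some none := rfl
    rw [h5, h6]
    simp only [Function.comp_def] at h4 ⊢
    rw [h4]
    ring
  rw [h3] at h2
  exact h2

end Pool.Agent.H43.TateC
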