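import Pool.Agent.H43.TateC.Bir
import Pool.Agent.H43.TateC.Dim
import Pool.Agent.H43.TateC.Words

/-! # From hypersurfaces to all algebras of finite type -/

set_option autoImplicit false

namespace Pool.Agent.H43.TateC

open MvPolynomial

variable {p : ℕ} [Fact p.Prime] {T : Theory p}

variable (T) in
/-- the Tate property for all hypersurfaces in affine spaces of dimension at most `d + 1` -/
def Hypers (d : ℕ) : Prop := ∀ (σ : Type) [Finite σ], Nat.card σ ≤ d + 1 →
  ∀ f : MvPolynomial σ (ZMod p), T.Tate (Hyp f)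

theorem hypers_of (d : ℕ) (H : ∀ f : MvPolynomial (Fin (d + 1)) (ZMod p), T.Tate (Hyp f)) :
    Hypers T d := by
  have key : ∀ m n : ℕ, n + m = d + 1 → ∀ f : MvPolynomial (Fin n) (ZMod p), T.Tate (Hyp f) := by
    intro m
    induction m with
    | zero =>
      intro n h
      obtain rfl : n = d + 1 := h
      exact H
    | succ m ih =>
      intro n h f
      apply Theory.Tate.of_mul_X
      have h1 := (ih (n + 1) (by omega) (renameEquiv (ZMod p) (finSuccEquiv n).symm
        (X none * rename some f))).equiv (renameEquiv (ZMod p) (finSuccEquiv n))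
      rw [← renameEquiv_symm, AlgEquiv.apply_symm_apply] at h1
      exact h1
  intro σ _ hc f
  obtain ⟨e⟩ : Nonempty (σ ≃ Fin (Nat.card σ)) := ⟨Finite.equivFin σ⟩
  have h1 := (key (d + 1 - Nat.card σ) (Nat.card σ) (by omega)
    (renameEquiv (ZMod p) e f)).equiv (renameEquiv (ZMod p) e).symm
  rw [AlgEquiv.symm_apply_apply] at h1
  exact h1

variable {d : ℕ}

/-- trivial rings -/
theorem tate_zero (H : Hypers T d) (A : Type) [CommRing A] [Algebra (ZMod p) A] [Subsingleton A] :
    T.Tate A := by
  have h1 := (H Empty (by simp) 0).loc (A := Hyp (0 : MvPolynomial Empty (ZMod p))) 0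
  have h2 : Subsingleton (Localization.Away (0 : Hyp (0 : MvPolynomial Empty (ZMod p)))) := by
    rw [← subsingleton_iff_zero_eq_one]
    have h3 : toL (ZMod p) (0 : Hyp (0 : MvPolynomial Empty (ZMod p))) 0 * _ = 1 :=
      IsLocalization.Away.mul_invSelf (0 : Hyp (0 : MvPolynomial Empty (ZMod p)))
    rw [map_zero, zero_mul] at h3
    exact h3
  refine h1.iso (AlgEquiv.ofBijective
    ({ toFun := fun _ => 0, map_one' := Subsingleton.elim _ _, map_mul' := fun _ _ =>
        Subsingleton.elim _ _, map_zero' := rfl, map_add' := fun _ _ => Subsingleton.elim _ _,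
        commutes' := fun _ => Subsingleton.elim _ _ } :
      Localization.Away (0 : Hyp (0 : MvPolynomial Empty (ZMod p))) →ₐ[ZMod p] A)
    ⟨fun _ _ _ => Subsingleton.elim _ _, fun _ => ⟨0, Subsingleton.elim _ _⟩⟩)

/-- domains -/
theorem tate_domain (H : Hypers T d) (B : Type) [CommRing B] [Algebra (ZMod p) B] [IsDomain B]
    [Algebra.FiniteType (ZMod p) B] (hd : ringKrullDim B ≤ d)
    (ih : ∀ h : B, h ≠ 0 → T.Tate (B ⧸ Ideal.span {h})) : T.Tate B := by
  let K := FractionRing B
  obtain ⟨s, hs, F, i', hi', hf'⟩ := exists_model (k := ZMod p) (K := K)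
  have hc : Nat.card (Option s) ≤ d + 1 := by
    have h1 := card_le (k := ZMod p) (B := B) hd s hs
    rw [Finite.card_option, Nat.card_eq_fintype_card, Fintype.card_coe]
    omega
  let i : B →ₐ[ZMod p] K := IsScalarTower.toAlgHom (ZMod p) B K
  have hi : Function.Injective i := IsFractionRing.injective B K
  have hf : Frac i := by
    intro x
    obtain ⟨a, b, hb, hx⟩ := IsFractionRing.div_surjective (A := B) x
    have hb0 : i b ≠ 0 := by
      intro h
      apply nonZeroDivisors.ne_zero hb
      apply hi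
      rw [h, map_zero]
    refine ⟨a, b, hb0, ?_⟩
    rw [← hx]
    exact div_mul_cancel₀ _ hb0
  obtain ⟨h, g, hh, -, ⟨e⟩⟩ := exists_common i i' hi hi' hf hf'
  have h0 : h ≠ 0 := by
    rintro rfl
    exact hh (map_zero i)
  have h1 := ((H _ hc F).loc g).iso e.symm
  exact (ih h h0).glue h h1

/-- the quotient of a quotient -/
noncomputable def dqEquiv {A : Type} [CommRing A] [Algebra (ZMod p) A] (I : Ideal A) (a : A) :
    ((A ⧸ I) ⧸ Ideal.span {Ideal.Quotient.mk I a}) ≃ₐ[ZMod p] A ⧸ (I ⊔ Ideal.span {a}) := by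
  have h : Ideal.span {Ideal.Quotient.mk I a} = (Ideal.span {a}).map (Ideal.Quotient.mkₐ (ZMod p) I) := by
    rw [Ideal.map_span, Set.image_singleton]
    rfl
  rw [h]
  exact DoubleQuot.quotQuotEquivQuotSupₐ (ZMod p) I (Ideal.span {a})

theorem tate_quot (H : Hypers T d) (A : Type) [CommRing A] [Algebra (ZMod p) A]
    [Algebra.FiniteType (ZMod p) A] (I : Ideal A) (hI : ringKrullDim (A ⧸ I) ≤ d) :
    T.Tate (A ⧸ I) := by
  have hN : IsNoetherianRing A := Algebra.FiniteType.isNoetherianRing (ZMod p) A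
  revert hI
  refine IsNoetherian.induction (P := fun I : Ideal A => ringKrullDim (A ⧸ I) ≤ d → T.Tate (A ⧸ I))
    ?_ I
  intro I ih hI
  -- smaller closed subschemes
  have hq : ∀ h : A ⧸ I, h ≠ 0 → T.Tate ((A ⧸ I) ⧸ Ideal.span {h}) := by
    intro h hh
    obtain ⟨a, rfl⟩ := Ideal.Quotient.mk_surjective h
    have hlt : I < I ⊔ Ideal.span {a} := by
      rw [left_lt_sup]
      intro hle
      exact hh (Ideal.Quotient.eq_zero_iff_mem.2 (hle (Ideal.mem_span_singleton_self a)))
    exact (ih _ hlt ((ringKrullDim_le_of_surjective (Ideal.Quotient.factor le_sup_left)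
      (Ideal.Quotient.factor_surjective le_sup_left)).trans hI)).iso (dqEquiv I a).symm
  by_cases htop : I = ⊤
  · have : Subsingleton (A ⧸ I) := Ideal.Quotient.subsingleton_iff.2 htop
    exact tate_zero H _
  have hnt : Nontrivial (A ⧸ I) := Ideal.Quotient.nontrivial_iff.2 htop
  by_cases hd : NoZeroDivisors (A ⧸ I)
  · have : IsDomain (A ⧸ I) := NoZeroDivisors.to_isDomain _
    exact tate_domain H _ hI hq
  · obtain ⟨a, b, hab, ha, hb⟩ : ∃ a b : A ⧸ I, a * b = 0 ∧ a ≠ 0 ∧ b ≠ 0 := by
      by_contra hcon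
      push Not at hcon
      apply hd
      constructor
      intro a b hab
      by_contra h
      push Not at h
      exact h.2 (hcon a b hab h.1)
    apply (hq b hb).glue b
    -- on the open part `b ≠ 0` we have `a = 0`
    have h1 := (hq a ha).loc (Ideal.Quotient.mk _ b)
    refine h1.iso ?_
    refine AlgEquiv.ofAlgHom
      (lLift _ (qLift a (toL (ZMod p) b) ?_) ?_) (lLift b ((toL (ZMod p) _).comp
        (Ideal.Quotient.mkₐ (ZMod p) _)) ?_) ?_ ?_
    · have hu := isUnit_toL (k := ZMod p) b
      have h2 : toL (ZMod p) b a * toL (ZMod p) b b = 0 := by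
        rw [← map_mul, hab, map_zero]
      exact (hu.mul_left_eq_zero).1 h2
    · rw [qLift_mk]
      exact isUnit_toL (k := ZMod p) b
    · exact isUnit_toL (k := ZMod p) _
    · apply l_ext
      intro x
      simp only [AlgHom.comp_apply, AlgHom.id_apply]
      rw [lLift_alg]
      simp only [AlgHom.comp_apply, toL_apply]
      rw [lLift_alg]
      rfl
    · apply l_ext
      intro x
      obtain ⟨x, rfl⟩ := Ideal.Quotient.mk_surjective x
      simp only [AlgHom.comp_apply, AlgHom.id_apply]
      rw [lLift_alg, qLift_mk, toL_apply, lLift_alg]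
      rfl

/-- all algebras of finite type -/
theorem tate_all (H : Hypers T d) : T.TateDim d := by
  intro A _ _ _ hA
  obtain ⟨n, f, hf⟩ := (Algebra.FiniteType.iff_quotient_mvPolynomial'' (R := ZMod p) (S := A)).1
    inferInstance
  have h1 := tate_quot H (MvPolynomial (Fin n) (ZMod p)) (RingHom.ker f) (by
    rw [ringKrullDim_eq_of_ringEquiv
      (Ideal.quotientKerAlgEquivOfSurjective hf).toRingEquiv]
    exact hA)
  exact h1.iso (Ideal.quotientKerAlgEquivOfSurjective hf)

end Pool.Agent.H43.TateC
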