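import Pool.Agent.H43.TateC.Pivot

/-! # Bilinear families over good rings -/

set_option autoImplicit false

namespace Pool.Agent.H43.TateC.Rel

open MvPolynomial

variable {p : ℕ} [Fact p.Prime] (T : Theory p)

/-- a class of rings which is closed under `R / b`, `R[1/b]`, and has the Tate property -/
structure Good (G : ∀ (R : Type) [CommRing R] [Algebra (ZMod p) R], Prop) : Prop where
  ft : ∀ (R : Type) [CommRing R] [Algebra (ZMod p) R], G R → Algebra.FiniteType (ZMod p) R
  tate : ∀ (R : Type) [CommRing R] [Algebra (ZMod p) R], G R → T.Tate R
  quot : ∀ (R : Type) [CommRing R] [Algebra (ZMod p) R] (b : R), G R → G (R ⧸ Ideal.span {b})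
  loc : ∀ (R : Type) [CommRing R] [Algebra (ZMod p) R] (b : R), G R → G (Localization.Away b)

variable {T} {G : ∀ (R : Type) [CommRing R] [Algebra (ZMod p) R], Prop}

open Classical in
/-- the number of entries which are not zero -/
noncomputable def nz {R : Type} [CommRing R] {m n : ℕ} (B : Fin m → Fin n → R) : ℕ :=
  (Finset.univ.filter fun e : Fin m × Fin n => B e.1 e.2 ≠ 0).card

theorem tate_bil (hG : Good T G) : ∀ (m : ℕ) (R : Type) [CommRing R] [Algebra (ZMod p) R],
    G R → ∀ (n : ℕ) (B : Fin m → Fin n → R), T.Tate (Hyp (form B)) := by
  classical
  intro m
  induction m with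
  | zero =>
    intro R _ _ hR n B
    have := hG.ft R hR
    rw [form_zero B fun a => a.elim0]
    exact tate_zero (hG.tate R hR) _
  | succ m ihm =>
    have key : ∀ (N : ℕ) (R : Type) [CommRing R] [Algebra (ZMod p) R],
        G R → ∀ (n : ℕ) (B : Fin (m + 1) → Fin n → R), nz B ≤ N → T.Tate (Hyp (form B)) := by
      intro N
      induction N with
      | zero =>
        intro R _ _ hR n B hN
        have := hG.ft R hR
        rw [form_zero B fun a b => by
          by_contra h
          have h1 : nz B = 0 := Nat.le_zero.1 hN
          unfold nz at h1
          rw [Finset.card_eq_zero] at h1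
          have h2 : (a, b) ∈ (Finset.univ.filter fun e : Fin (m + 1) × Fin n =>
              B e.1 e.2 ≠ 0) := Finset.mem_filter.2 ⟨Finset.mem_univ _, h⟩
          rw [h1] at h2
          exact Finset.notMem_empty _ h2]
        exact tate_zero (hG.tate R hR) _
      | succ N ih =>
        intro R _ _ hR n B hN
        have := hG.ft R hR
        by_cases h0 : nz B ≤ N
        · exact ih R hR n B h0
        -- a nonzero entry
        obtain ⟨⟨a, b⟩, hab⟩ : (Finset.univ.filter fun e : Fin (m + 1) × Fin n =>
            B e.1 e.2 ≠ 0).Nonempty := by
          rw [← Finset.card_pos]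
          change 0 < nz B
          omega
        have hab' : B a b ≠ 0 := (Finset.mem_filter.1 hab).2
        apply tate_base (B a b)
        · -- the closed part
          rw [map_form]
          refine ih _ (hG.quot R (B a b) hR) n _ ?_
          have hlt : nz (fun i j => (mq (ZMod p) (B a b) : R →+* R ⧸ Ideal.span {B a b})
              (B i j)) < nz B := by
            unfold nz
            apply Finset.card_lt_card
            rw [Finset.ssubset_iff_of_subset]
            · refine ⟨(a, b), hab, ?_⟩
              rw [Finset.mem_filter]
              rintro ⟨-, h⟩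
              exact h (mq_self (k := ZMod p) (B a b))
            · intro e he
              rw [Finset.mem_filter] at he ⊢
              refine ⟨he.1, fun h => he.2 ?_⟩
              change (mq (ZMod p) (B a b) : R →+* R ⧸ Ideal.span {B a b}) (B e.1 e.2) = 0
              rw [h, map_zero]
          omega
        · -- the open part
          rw [map_form]
          have hL := hG.loc R (B a b) hR
          have hLf := hG.ft _ hL
          obtain ⟨n, rfl⟩ : ∃ n', n = n' + 1 := ⟨n - 1, by have := b.pos; omega⟩
          let e := finSuccEquiv' a
          let f := finSuccEquiv' b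
          have hea : e.symm none = a := by simp [e]
          have hfb : f.symm none = b := by simp [f]
          let B' : Option (Fin m) → Option (Fin n) → Localization.Away (B a b) := fun i j =>
            toL (ZMod p) (B a b) (B (e.symm i) (f.symm j))
          obtain ⟨w, hw⟩ : ∃ w, w * B' none none = 1 := by
            have hu := isUnit_toL (k := ZMod p) (B a b)
            obtain ⟨w, hw⟩ := hu.exists_left_inv
            refine ⟨w, ?_⟩
            change w * toL (ZMod p) (B a b) (B (e.symm none) (f.symm none)) = 1
            rw [hea, hfb]
            exact hw
          have h1 := ihm _ hL n (red B' w)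
          have h2 := tate_stab (hG.tate _ hL) h1
          have h3 := tate_equiv h2 (pE B' w hw).symm (form B') (by
            rw [← pE_form B' w hw, AlgEquiv.symm_apply_apply])
          refine tate_equiv h3 (renameEquiv _ (Equiv.sumCongr e f)).symm _ ?_
          rw [AlgEquiv.symm_apply_eq, rename_form]
          rfl
    intro R _ _ hR n B
    exact key _ R hR n B le_rfl

end Pool.Agent.H43.TateC.Rel
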