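import Pool.Agent.H43.TateC.Stab

/-! # Domains of finite type over a perfect field are birational to hypersurfaces -/

set_option autoImplicit false

namespace Pool.Agent.H43.TateC

section common

variable {k K : Type} [Field k] [Field K] [Algebra k K]

section one

variable {B : Type} [CommRing B] [Algebra k B] (i : B →ₐ[k] K)

/-- the map from `B[1/h]` to `K` -/
noncomputable def lK (h : B) (hh : i h ≠ 0) : Localization.Away h →ₐ[k] K :=
  lLift h i (isUnit_iff_ne_zero.2 hh)

theorem lK_alg (h : B) (hh : i h ≠ 0) (b : B) : lK i h hh (algebraMap B _ b) = i b :=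
  lLift_alg _ _ _ _

theorem lK_surj (h : B) (hh : i h ≠ 0) (x : Localization.Away h) :
    ∃ (n : ℕ) (b : B), x * algebraMap B _ h ^ n = algebraMap B _ b := by
  obtain ⟨⟨b, ⟨_, n, rfl⟩⟩, hb⟩ := IsLocalization.surj (Submonoid.powers h) x
  refine ⟨n, b, ?_⟩
  rw [← map_pow]
  exact hb

theorem lK_inj (hi : Function.Injective i) (h : B) (hh : i h ≠ 0) :
    Function.Injective (lK i h hh) := by
  rw [injective_iff_map_eq_zero]
  intro x hx
  obtain ⟨n, b, hb⟩ := lK_surj i h hh x
  have h1 := congrArg (lK i h hh) hb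
  rw [map_mul, hx, zero_mul, lK_alg] at h1
  have h2 : b = 0 := hi (by rw [map_zero]; exact h1.symm)
  rw [h2, map_zero] at hb
  have hu : IsUnit (algebraMap B (Localization.Away h) h ^ n) :=
    (IsLocalization.map_units (Localization.Away h) ⟨h, Submonoid.mem_powers h⟩).pow n
  exact (hu.mul_left_eq_zero).1 hb

theorem mem_range_lK (h : B) (hh : i h ≠ 0) (x : K) :
    x ∈ (lK i h hh).range ↔ ∃ (n : ℕ) (b : B), x * i h ^ n = i b := by
  constructor
  · rintro ⟨y, rfl⟩
    obtain ⟨n, b, hb⟩ := lK_surj i h hh y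
    refine ⟨n, b, ?_⟩
    have h1 := congrArg (lK i h hh) hb
    rw [map_mul, map_pow, lK_alg, lK_alg] at h1
    exact h1
  · rintro ⟨n, b, hb⟩
    refine ⟨algebraMap B _ b * IsLocalization.Away.invSelf h ^ n, ?_⟩
    have h1 : lK i h hh (IsLocalization.Away.invSelf h) * i h = 1 := by
      have h2 := congrArg (lK i h hh) (IsLocalization.Away.mul_invSelf (S := Localization.Away h) h)
      rw [map_mul, lK_alg, map_one, mul_comm] at h2
      exact h2
    change lK i h hh _ = x
    rw [map_mul, lK_alg, map_pow, ← hb, mul_assoc, ← mul_pow, mul_comm (i h), h1, one_pow, mul_one]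

theorem range_le_lK (h : B) (hh : i h ≠ 0) : i.range ≤ (lK i h hh).range := by
  rintro _ ⟨b, rfl⟩
  exact ⟨algebraMap B _ b, lK_alg i h hh b⟩

theorem inv_mem_lK (h : B) (hh : i h ≠ 0) : (i h)⁻¹ ∈ (lK i h hh).range := by
  rw [mem_range_lK]
  exact ⟨1, 1, by rw [pow_one, inv_mul_cancel₀ hh, map_one]⟩

/-- every element of `K` is a fraction -/
def Frac : Prop := ∀ x : K, ∃ a b : B, i b ≠ 0 ∧ x * i b = i a

end one

variable {B B' : Type} [CommRing B] [Algebra k B] [CommRing B'] [Algebra k B']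
  (i : B →ₐ[k] K) (i' : B' →ₐ[k] K)

theorem exists_den [hB : Algebra.FiniteType k B] (h' : Frac i') :
    ∃ (g : B') (hg : i' g ≠ 0), i.range ≤ (lK i' g hg).range := by
  classical
  obtain ⟨t, ht⟩ := hB.out
  choose a d hd ha using h'
  refine ⟨∏ b ∈ t, d (i b), ?_, ?_⟩
  · rw [map_prod]
    exact Finset.prod_ne_zero_iff.2 fun b _ => hd (i b)
  · rw [← Algebra.map_top, Subalgebra.map_le, ← ht, Algebra.adjoin_le_iff]
    intro b hb
    change i b ∈ (lK i' _ _).range
    rw [mem_range_lK]
    have hb' : b ∈ t := hb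
    refine ⟨1, a (i b) * ∏ c ∈ t.erase b, d (i c), ?_⟩
    rw [pow_one, ← Finset.mul_prod_erase t _ hb', map_mul, map_mul, ← ha (i b), mul_assoc]

theorem exists_common [Algebra.FiniteType k B] [Algebra.FiniteType k B']
    (hi : Function.Injective i) (hi' : Function.Injective i') (hf : Frac i) (hf' : Frac i') :
    ∃ (h : B) (g : B'), i h ≠ 0 ∧ i' g ≠ 0 ∧
      Nonempty (Localization.Away h ≃ₐ[k] Localization.Away g) := by
  obtain ⟨g, hg, hle⟩ := exists_den i i' hf'
  obtain ⟨h, hh, hle'⟩ := exists_den (lK i' g hg) i hf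
  obtain ⟨n, b, hb⟩ := (mem_range_lK i' g hg (i h)).1 (hle ⟨h, rfl⟩)
  have hb0 : i' b ≠ 0 := by
    rw [← hb]
    exact mul_ne_zero hh (pow_ne_zero _ hg)
  have hg2 : i' (g * b) ≠ 0 := by
    rw [map_mul]
    exact mul_ne_zero hg hb0
  have e : (lK i h hh).range = (lK i' (g * b) hg2).range := by
    apply le_antisymm
    · intro x hx
      obtain ⟨m, c, hc⟩ := (mem_range_lK i h hh x).1 hx
      obtain ⟨l, c', hc'⟩ := (mem_range_lK i' g hg (i c)).1 (hle ⟨c, rfl⟩)
      rw [mem_range_lK]
      refine ⟨m + l, c' * g ^ (n * m + m) * b ^ l, ?_⟩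
      simp only [map_mul, map_pow]
      rw [← hc', ← hc, ← hb]
      ring
    · intro x hx
      obtain ⟨m, c, hc⟩ := (mem_range_lK i' (g * b) hg2 x).1 hx
      have h1 : i' c ∈ (lK i h hh).range := hle' (range_le_lK i' g hg ⟨c, rfl⟩)
      have h2 : (i' g)⁻¹ ∈ (lK i h hh).range := hle' (inv_mem_lK i' g hg)
      have h3 : (i' b)⁻¹ ∈ (lK i h hh).range := by
        rw [← hb, mul_inv, ← inv_pow]
        exact mul_mem (inv_mem_lK i h hh) (pow_mem h2 n)
      have h4 : x = i' c * (i' g)⁻¹ ^ m * (i' b)⁻¹ ^ m := by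
        have hgm := pow_ne_zero m hg
        have hbm := pow_ne_zero m hb0
        rw [← hc, map_mul, mul_pow, inv_pow, inv_pow]
        field_simp
      rw [h4]
      exact mul_mem (mul_mem h1 (pow_mem h2 m)) (pow_mem h3 m)
  refine ⟨h, g * b, hh, hg2, ⟨?_⟩⟩
  exact (AlgEquiv.ofInjective _ (lK_inj i hi h hh)).trans
    ((Subalgebra.equivOfEq _ _ e).trans (AlgEquiv.ofInjective _ (lK_inj i' hi' _ hg2)).symm)

end common

section poly

open MvPolynomial

variable {k K : Type} [Field k] [Field K] [Algebra k K]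

/-- the relation of a primitive element -/
theorem exists_rel (s : Finset K) (hs : IsTranscendenceBasis k ((↑) : s → K)) (θ : K) :
    ∃ (r : MvPolynomial s k) (F : MvPolynomial (Option s) k), aeval ((↑) : s → K) r ≠ 0 ∧
      ∀ G : MvPolynomial (Option s) k,
        aeval (fun o : Option s => o.elim (aeval ((↑) : s → K) r * θ) ((↑) : s → K)) G = 0 ↔
          F ∣ G := by
  classical
  let _ : Algebra (MvPolynomial s k) K := (aeval ((↑) : s → K)).toRingHom.toAlgebra
  have hmap : ∀ r : MvPolynomial s k, algebraMap (MvPolynomial s k) K r =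
      aeval ((↑) : s → K) r := fun _ => rfl
  have hinj : Function.Injective (algebraMap (MvPolynomial s k) K) := hs.1
  have : FaithfulSMul (MvPolynomial s k) K := (faithfulSMul_iff_algebraMap_injective _ _).2 hinj
  have : IsScalarTower k (MvPolynomial s k) K := by
    refine IsScalarTower.of_algebraMap_eq fun x => ?_
    rw [hmap]
    exact ((aeval ((↑) : s → K)).commutes x).symm
  have hmap2 : ∀ r : MvPolynomial s k, algebraMap (MvPolynomial s k) K r =
      aeval ((↑) : s → K) r := fun _ => rfl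
  have halg : IsAlgebraic (MvPolynomial s k) θ := by
    obtain ⟨q, hq, hq0⟩ := hs.isAlgebraic.isAlgebraic θ
    refine ⟨q.map (hs.1.aevalEquiv.symm : _ →+* MvPolynomial s k), ?_, ?_⟩
    · rw [Ne, Polynomial.map_eq_zero_iff]
      · exact hq
      · exact hs.1.aevalEquiv.symm.injective
    · rw [Polynomial.aeval_def, Polynomial.eval₂_map]
      rw [Polynomial.aeval_def] at hq0
      rw [← hq0]
      congr 1
      ext y
      simp only [RingHom.comp_apply]
      rw [hmap]
      have h3 := hs.1.algebraMap_aevalEquiv (hs.1.aevalEquiv.symm y)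
      rw [AlgEquiv.apply_symm_apply] at h3
      exact h3.symm
  obtain ⟨r, hr, hint⟩ := halg.exists_integral_multiple
  rw [Algebra.smul_def, hmap] at hint
  refine ⟨r, (optionEquivLeft k s).symm (minpoly (MvPolynomial s k) (aeval ((↑) : s → K) r * θ)),
    ?_, ?_⟩
  · intro h
    apply hr
    apply hinj
    rw [map_zero, hmap]
    exact h
  · intro G
    obtain ⟨θ', hθ'⟩ : ∃ θ', θ' = aeval ((↑) : s → K) r * θ := ⟨_, rfl⟩
    rw [← hθ'] at hint ⊢
    have h1 : aeval (fun o : Option s => o.elim θ' ((↑) : s → K)) G =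
        Polynomial.aeval θ' (optionEquivLeft k s G) := by
      refine mv_congr (f := aeval (fun o : Option s => o.elim θ' ((↑) : s → K)))
        (g := ((Polynomial.aeval θ' : Polynomial (MvPolynomial s k) →ₐ[MvPolynomial s k]
          K).restrictScalars k).comp (optionEquivLeft k s).toAlgHom) ?_ G
      intro o
      rw [aeval_X]
      change _ = Polynomial.aeval θ' (optionEquivLeft k s (X o))
      rcases o with _ | i
      · rw [optionEquivLeft_X_none, Polynomial.aeval_X]
        rfl
      · rw [optionEquivLeft_X_some, Polynomial.aeval_C, hmap, aeval_X]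
        rfl
    rw [h1, minpoly.isIntegrallyClosed_dvd_iff hint]
    constructor
    · rintro ⟨c, hc⟩
      refine ⟨(optionEquivLeft k s).symm c, ?_⟩
      rw [← map_mul, ← hc, AlgEquiv.symm_apply_apply]
    · rintro ⟨c, hc⟩
      refine ⟨optionEquivLeft k s c, ?_⟩
      rw [hc, map_mul, AlgEquiv.apply_symm_apply]

/-- fractions of elements of a subalgebra which contains generators -/
theorem frac_of_gen (S : Subalgebra k K) (s : Set K) (θ ρ : K) (hs : ∀ y ∈ s, y ∈ S)
    (hρ0 : ρ ≠ 0) (hρ : ρ ∈ S) (hθ : ρ * θ ∈ S)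
    (htop : ∀ x : K, x ∈ IntermediateField.adjoin k (s ∪ {θ})) (x : K) :
    ∃ a ∈ S, ∃ b ∈ S, b ≠ 0 ∧ x * b = a := by
  have hx : x ∈ IntermediateField.adjoin k (S : Set K) := by
    have hle : IntermediateField.adjoin k (s ∪ {θ}) ≤ IntermediateField.adjoin k (S : Set K) := by
      rw [IntermediateField.adjoin_le_iff]
      rintro y (hy | rfl)
      · exact IntermediateField.subset_adjoin _ _ (hs y hy)
      · have h5 : y = (ρ * y) / ρ := by
          rw [mul_comm, mul_div_assoc, div_self hρ0, mul_one]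
        rw [h5]
        exact div_mem (IntermediateField.subset_adjoin _ _ hθ)
          (IntermediateField.subset_adjoin _ _ hρ)
    exact hle (htop x)
  obtain ⟨a, ha, b, hb, hab⟩ := IntermediateField.mem_adjoin_iff_div.1 hx
  rw [Algebra.adjoin_eq] at ha hb
  by_cases h0 : b = 0
  · refine ⟨0, S.zero_mem, 1, S.one_mem, one_ne_zero, ?_⟩
    rw [hab, h0, div_zero, zero_mul]
  · exact ⟨a, ha, b, hb, h0, by rw [hab, div_mul_cancel₀ _ h0]⟩

/-- a finitely generated field over a perfect field is the function field of a hypersurface -/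
theorem exists_model [PerfectField k] [Algebra.EssFiniteType k K] :
    ∃ (s : Finset K) (_ : IsTranscendenceBasis k ((↑) : s → K)) (F : MvPolynomial (Option s) k)
      (i' : Hyp F →ₐ[k] K), Function.Injective i' ∧ Frac i' := by
  classical
  obtain ⟨s, hs, hsep⟩ := exists_isTranscendenceBasis_and_isSeparable_of_perfectField k K
  have : Algebra.EssFiniteType (IntermediateField.adjoin k (s : Set K)) K :=
    Algebra.EssFiniteType.of_comp k _ K
  have : Module.Finite (IntermediateField.adjoin k (s : Set K)) K :=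
    Algebra.finite_of_essFiniteType_of_isAlgebraic
  obtain ⟨θ, hθ⟩ := Field.exists_primitive_element (IntermediateField.adjoin k (s : Set K)) K
  have htop : ∀ x : K, x ∈ IntermediateField.adjoin k ((s : Set K) ∪ {θ}) := by
    intro x
    rw [← IntermediateField.adjoin_adjoin_left, hθ]
    trivial
  obtain ⟨r, F, hr, hF⟩ := exists_rel s hs θ
  obtain ⟨ρ, hρ⟩ : ∃ ρ, ρ = aeval ((↑) : s → K) r := ⟨_, rfl⟩
  rw [← hρ] at hr hF
  obtain ⟨ψ, hψ⟩ : ∃ ψ : MvPolynomial (Option s) k →ₐ[k] K,
    ψ = aeval (fun o : Option s => o.elim (ρ * θ) ((↑) : s → K)) := ⟨_, rfl⟩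
  have hF' : ∀ G, ψ G = 0 ↔ F ∣ G := by
    intro G
    rw [hψ]
    exact hF G
  have h0 : ψ (X none) = ρ * θ := by
    rw [hψ, aeval_X]
    rfl
  have h1 : ∀ i : s, ψ (X (some i)) = (i : K) := by
    intro i
    rw [hψ, aeval_X]
    rfl
  have h2 : ψ (rename some r) = ρ := by
    rw [hρ]
    exact mv_congr (f := ψ.comp (rename some)) (g := aeval ((↑) : s → K))
      (fun i => by rw [AlgHom.comp_apply, rename_X, h1, aeval_X]) r
  refine ⟨s, hs, F, hLift F ψ ((hF' F).2 dvd_rfl), ?_, ?_⟩
  · rw [injective_iff_map_eq_zero]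
    intro x hx
    obtain ⟨G, rfl⟩ := hmk_surj F x
    rw [hLift_mk] at hx
    obtain ⟨c, rfl⟩ := (hF' G).1 hx
    rw [map_mul, hmk_self, zero_mul]
  · intro x
    obtain ⟨_, ⟨a, rfl⟩, _, ⟨b, rfl⟩, hb, hab⟩ := frac_of_gen ψ.range (s : Set K) θ ρ
      (fun y hy => ⟨X (some ⟨y, hy⟩), h1 ⟨y, hy⟩⟩) hr ⟨_, h2⟩ ⟨_, h0⟩ htop x
    exact ⟨hmk F a, hmk F b, hb, hab⟩

end poly

end Pool.Agent.H43.TateC
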