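import Pool.Agent.H43.TateC.Small

/-! # From all algebras of dimension at most `d` to trilinear cones -/

set_option autoImplicit false

namespace Pool.Agent.H43.TateC

open MvPolynomial

section cut

variable {k : Type} [Field k] {σ : Type}

/-- `x_0` goes to `0` -/
noncomputable def z0 (k : Type) [Field k] (σ : Type) : MvPolynomial (Option σ) k →ₐ[k]
    MvPolynomial σ k := aeval fun o : Option σ => o.elim 0 X

theorem z0_none : z0 k σ (X none) = 0 := by
  unfold z0
  rw [aeval_X]
  rfl

theorem z0_some (i : σ) : z0 k σ (X (some i)) = X i := by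
  unfold z0
  rw [aeval_X]
  rfl

theorem z0_rename (F : MvPolynomial σ k) : z0 k σ (rename some F) = F :=
  (mv_congr (f := (z0 k σ).comp (rename some)) (g := AlgHom.id k _)
    (fun i => by rw [AlgHom.comp_apply, rename_X, z0_some]; rfl) F)

variable (G : MvPolynomial (Option σ) k)

/-- the variables in the part `x_0 = 0` -/
noncomputable def kM : MvPolynomial (Option σ) k →ₐ[k] (Hyp G ⧸ Ideal.span {hmk G (X none)}) :=
  (Ideal.Quotient.mkₐ k _).comp (hmk G)

theorem kM_none : kM G (X none) = 0 :=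
  Ideal.Quotient.eq_zero_iff_mem.2 (Ideal.mem_span_singleton_self (hmk G (X none)))

theorem kM_z0 (H : MvPolynomial (Option σ) k) : kM G (rename some (z0 k σ H)) = kM G H :=
  mv_congr (f := ((kM G).comp (rename some)).comp (z0 k σ)) (g := kM G)
    (fun i => by
      simp only [AlgHom.comp_apply]
      rcases i with _ | i
      · rw [z0_none, map_zero, map_zero, kM_none]
      · rw [z0_some, rename_X]) H

/-- forward -/
noncomputable def kF : (Hyp G ⧸ Ideal.span {hmk G (X none)}) →ₐ[k] Hyp (z0 k σ G) :=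
  qLift _ (hLift G ((hmk (z0 k σ G)).comp (z0 k σ)) (by
    rw [AlgHom.comp_apply, hmk_self])) (by
    rw [hLift_mk, AlgHom.comp_apply, z0_none, map_zero])

theorem kF_kM (H : MvPolynomial (Option σ) k) : kF G (kM G H) = hmk (z0 k σ G) (z0 k σ H) := rfl

/-- backward -/
noncomputable def kB : Hyp (z0 k σ G) →ₐ[k] (Hyp G ⧸ Ideal.span {hmk G (X none)}) :=
  hLift _ ((kM G).comp (rename some)) (by
    rw [AlgHom.comp_apply, kM_z0]
    unfold kM
    rw [AlgHom.comp_apply, hmk_self, map_zero])

theorem kB_hmk (H : MvPolynomial σ k) : kB G (hmk _ H) = kM G (rename some H) := rfl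

/-- the part `x_0 = 0` -/
noncomputable def cutEquiv : (Hyp G ⧸ Ideal.span {hmk G (X none)}) ≃ₐ[k] Hyp (z0 k σ G) :=
  AlgEquiv.ofAlgHom (kF G) (kB G)
    (by
      apply h_ext
      intro i
      rw [AlgHom.comp_apply, kB_hmk, kF_kM, z0_rename]
      rfl)
    (by
      apply q_ext
      apply h_ext
      intro i
      change kB G (kF G (kM G (X i))) = kM G (X i)
      rw [kF_kM, kB_hmk, kM_z0])

end cut

section forms

variable {k : Type} [Field k] {m n : ℕ}

/-- `∑ c_{iab} x_i y_a z_b` -/
noncomputable def form3 {l : ℕ} (c : Fin l → Fin m → Fin n → k) :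
    MvPolynomial (Vx (Fin l) (Fin m) (Fin n)) k :=
  ∑ i, ∑ a, ∑ b, C (c i a b) * X (Sum.inl i) * X (Sum.inr (Sum.inl a)) * X (Sum.inr (Sum.inr b))

/-- `∑ c_{ab} y_a z_b` -/
noncomputable def form2 {l : ℕ} (c : Fin m → Fin n → k) :
    MvPolynomial (Vx (Fin l) (Fin m) (Fin n)) k :=
  ∑ a, ∑ b, C (c a b) * X (Sum.inr (Sum.inl a)) * X (Sum.inr (Sum.inr b))

/-- `x_0 ∑ c_{ab} y_a z_b + ∑ c'_{iab} x_i y_a z_b` -/
noncomputable def gg {l : ℕ} (c : Fin m → Fin n → k) (c' : Fin l → Fin m → Fin n → k) :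
    MvPolynomial (Option (Vx (Fin l) (Fin m) (Fin n))) k :=
  X none * rename some (form2 c) + rename some (form3 c')

theorem z0_gg {l : ℕ} (c : Fin m → Fin n → k) (c' : Fin l → Fin m → Fin n → k) :
    z0 k _ (gg c c') = form3 c' := by
  unfold gg
  rw [map_add, map_mul, z0_none, zero_mul, zero_add, z0_rename]

theorem theta_gg {l : ℕ} (c : Fin m → Fin n → k) (c' : Fin l → Fin m → Fin n → k) :
    theta (fun i : Vx (Fin l) (Fin m) (Fin n) => i.isLeft = true) k (gg c c') =
      X none * rename some (form2 c + form3 c') := by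
  have hx : ∀ i : Fin l, theta (fun i : Vx (Fin l) (Fin m) (Fin n) => i.isLeft = true) k
      (X (some (Sum.inl i))) = X none * X (some (Sum.inl i)) := fun i => by
    rw [theta_some, if_pos (by simp)]
  have hy : ∀ i : Fin m ⊕ Fin n, theta (fun i : Vx (Fin l) (Fin m) (Fin n) => i.isLeft = true) k
      (X (some (Sum.inr i))) = X (some (Sum.inr i)) := fun i => by
    rw [theta_some, if_neg (by simp)]
  have hC : ∀ r : k, theta (fun i : Vx (Fin l) (Fin m) (Fin n) => i.isLeft = true) k (C r) =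
      C r := fun r => (theta (fun i : Vx (Fin l) (Fin m) (Fin n) => i.isLeft = true) k).commutes r
  unfold gg
  have h1 : theta (fun i : Vx (Fin l) (Fin m) (Fin n) => i.isLeft = true) k
      (rename some (form2 c)) = rename some (form2 c) := by
    unfold form2
    simp only [map_sum, map_mul, rename_X, rename_C, hy, hC]
  have h2 : theta (fun i : Vx (Fin l) (Fin m) (Fin n) => i.isLeft = true) k
      (rename some (form3 c')) = X none * rename some (form3 c') := by
    unfold form3
    simp only [map_sum, map_mul, rename_X, rename_C, hx, hy, hC, Finset.mul_sum]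
    refine Finset.sum_congr rfl fun i _ => Finset.sum_congr rfl fun a _ =>
      Finset.sum_congr rfl fun b _ => ?_
    simp only [mul_assoc, mul_left_comm (X none)]
  rw [map_add, map_mul, theta_none, map_add, mul_add, h1, h2]

/-- the bijection of the variables -/
def vEquiv (l m n : ℕ) : Option (Vx (Fin l) (Fin m) (Fin n)) ≃ Vx (Fin (l + 1)) (Fin m) (Fin n) where
  toFun o := o.elim (Sum.inl 0) (Sum.map Fin.succ id)
  invFun := Sum.elim (fun i => (finSuccEquiv l i).elim none fun i => some (Sum.inl i))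
    fun i => some (Sum.inr i)
  left_inv := by
    rintro (_ | i | i) <;> simp
  right_inv := by
    rintro (i | i)
    · refine Fin.cases ?_ (fun i => ?_) i <;> simp
    · simp

theorem rename_gg {l : ℕ} (c : Fin (l + 1) → Fin m → Fin n → k) :
    renameEquiv k (vEquiv l m n) (gg (c 0) fun i => c i.succ) = form3 c := by
  rw [renameEquiv_apply]
  have e0 : vEquiv l m n none = Sum.inl 0 := rfl
  have e1 : ∀ i : Fin l, (⇑(vEquiv l m n) ∘ some) (Sum.inl i) = Sum.inl i.succ := fun _ => rfl
  have e2 : ∀ i : Fin m ⊕ Fin n, (⇑(vEquiv l m n) ∘ some) (Sum.inr i) = Sum.inr i := fun _ => rfl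
  have h1 : rename (⇑(vEquiv l m n) ∘ some) (form2 (l := l) (c 0)) =
      ∑ a, ∑ b, C (c 0 a b) * X (Sum.inr (Sum.inl a)) * X (Sum.inr (Sum.inr b)) := by
    unfold form2
    simp only [map_sum, map_mul, rename_X, rename_C, e2]
  have h2 : rename (⇑(vEquiv l m n) ∘ some) (form3 fun i => c i.succ) =
      ∑ i : Fin l, ∑ a, ∑ b, C (c i.succ a b) * X (Sum.inl i.succ) * X (Sum.inr (Sum.inl a)) *
        X (Sum.inr (Sum.inr b)) := by
    unfold form3
    simp only [map_sum, map_mul, rename_X, rename_C, e1, e2]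
  have h3 : form3 c = (∑ a, ∑ b, C (c 0 a b) * X (Sum.inl 0) * X (Sum.inr (Sum.inl a)) *
        X (Sum.inr (Sum.inr b))) +
      ∑ i : Fin l, ∑ a, ∑ b, C (c i.succ a b) * X (Sum.inl i.succ) * X (Sum.inr (Sum.inl a)) *
        X (Sum.inr (Sum.inr b)) := by
    unfold form3
    rw [Fin.sum_univ_succ]
  unfold gg
  rw [map_add, map_mul, rename_X, rename_rename, rename_rename, e0, h1, h2, h3, Finset.mul_sum]
  refine congrArg (· + _) (Finset.sum_congr rfl fun a _ => ?_)
  rw [Finset.mul_sum]
  refine Finset.sum_congr rfl fun b _ => ?_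
  rw [mul_comm (C (c 0 a b)) (X (Sum.inl 0)), mul_assoc, mul_assoc, mul_assoc]

/-- polynomials in `y`, `z` over polynomials in `x` -/
noncomputable def sEquiv (k : Type) [Field k] (l m n : ℕ) :
    MvPolynomial (Vx (Fin l) (Fin m) (Fin n)) k ≃ₐ[k]
    MvPolynomial (Fin m ⊕ Fin n) (MvPolynomial (Fin l) k) :=
  (renameEquiv k (Equiv.sumComm (Fin l) (Fin m ⊕ Fin n))).trans
    (sumAlgEquiv k (Fin m ⊕ Fin n) (Fin l))

theorem sEquiv_x {l : ℕ} (i : Fin l) : sEquiv k l m n (X (Sum.inl i)) = C (X i) := by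
  unfold sEquiv
  rw [AlgEquiv.trans_apply, renameEquiv_apply, rename_X]
  exact sumAlgEquiv_X_inr k (Fin m ⊕ Fin n) (Fin l) i

theorem sEquiv_yz {l : ℕ} (i : Fin m ⊕ Fin n) : sEquiv k l m n (X (Sum.inr i)) = X i := by
  unfold sEquiv
  rw [AlgEquiv.trans_apply, renameEquiv_apply, rename_X]
  exact sumAlgEquiv_X_inl k (Fin m ⊕ Fin n) (Fin l) i

theorem sEquiv_C {l : ℕ} (r : k) : sEquiv k l m n (C r) = C (C r) :=
  (sEquiv k l m n).commutes r

theorem sEquiv_form {l : ℕ} (c : Fin m → Fin n → k) (c' : Fin l → Fin m → Fin n → k) :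
    sEquiv k l m n (form2 c + form3 c') =
      Rel.form fun a b => C (c a b) + ∑ i, C (c' i a b) * X i := by
  unfold form2 form3 Rel.form
  rw [map_add]
  simp only [map_sum, map_mul, sEquiv_x, sEquiv_yz, sEquiv_C]
  have h3 : ∀ f : Fin l → Fin m → Fin n → MvPolynomial (Fin m ⊕ Fin n) (MvPolynomial (Fin l) k),
      ∑ i, ∑ a, ∑ b, f i a b = ∑ a, ∑ b, ∑ i, f i a b := by
    intro f
    rw [Finset.sum_comm]
    exact Finset.sum_congr rfl fun a _ => Finset.sum_comm
  rw [h3, ← Finset.sum_add_distrib]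
  refine Finset.sum_congr rfl fun a _ => ?_
  rw [← Finset.sum_add_distrib]
  refine Finset.sum_congr rfl fun b _ => ?_
  rw [map_add, map_sum]
  simp only [map_mul]
  rw [add_mul, add_mul, Finset.sum_mul, Finset.sum_mul]

end forms

variable {p : ℕ} [Fact p.Prime] {T : Theory p} {d : ℕ}

theorem tate_k (H : T.TateDim d) : T.Tate (ZMod p) :=
  H (ZMod p) (by
    rw [ringKrullDim_eq_zero_of_field]
    exact_mod_cast Nat.zero_le d)

theorem small_mv (H : T.TateDim d) {l : ℕ} (hl : l ≤ d + 1) :
    Rel.Small T d (MvPolynomial (Fin l) (ZMod p)) := by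
  refine ⟨inferInstance, Or.inr ⟨inferInstance, ?_, Rel.tate_mv (tate_k H) _⟩⟩
  rw [MvPolynomial.ringKrullDim_of_isNoetherianRing, ringKrullDim_eq_zero_of_field, zero_add,
    Nat.card_eq_fintype_card, Fintype.card_fin]
  exact_mod_cast hl

theorem tate_hyp_zero (H : T.TateDim d) (σ : Type) [Finite σ] :
    T.Tate (Hyp (0 : MvPolynomial σ (ZMod p))) :=
  Rel.tate_zero (tate_k H) σ

theorem tate_form3 (H : T.TateDim d) : ∀ (l : ℕ), l ≤ d + 2 → ∀ (m n : ℕ)
    (c : Fin l → Fin m → Fin n → ZMod p), T.Tate (Hyp (form3 c)) := by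
  intro l
  induction l with
  | zero =>
    intro _ m n c
    have h : form3 c = 0 := by
      unfold form3
      rw [Fin.sum_univ_zero]
    rw [h]
    exact tate_hyp_zero H _
  | succ l ih =>
    intro hl m n c
    rw [← rename_gg c]
    refine Theory.Tate.equiv ?_ _
    refine Theory.Tate.glue (hmk _ (X none)) ?_ ?_
    · refine Theory.Tate.iso ?_ (cutEquiv _).symm
      rw [z0_gg]
      exact ih (by omega) m n _
    · refine Theory.Tate.iso ?_ (homEquiv _ _ _ (theta_gg (c 0) fun i => c i.succ)).symm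
      refine Theory.Tate.loc (Theory.Tate.line ?_) _
      have h1 := Rel.tate_bil (Rel.small_good H) m _ (small_mv H (l := l) (by omega)) n
        (fun a b => C (c 0 a b) + ∑ i, C (c i.succ a b) * X i)
      exact h1.iso (qEquiv (sEquiv (ZMod p) l m n) _ _
        (sEquiv_form (c 0) fun i => c i.succ)).symm

/-- trilinear cones -/
theorem tri_of_tate (H : T.TateDim d) : Trilin T d := by
  classical
  intro m n E
  have h : tri (ZMod p) E = form3 fun i a b => if (i, a, b) ∈ E then 1 else 0 := by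
    unfold tri form3
    rw [← Finset.univ_inter E, ← Finset.sum_ite_mem]
    simp only [Fintype.sum_prod_type]
    refine Finset.sum_congr rfl fun i _ => Finset.sum_congr rfl fun a _ =>
      Finset.sum_congr rfl fun b _ => ?_
    rw [Finset.univ_inter]
    split_ifs
    · rw [C_1, one_mul]
    · rw [C_0, zero_mul, zero_mul, zero_mul]
  rw [h]
  exact tate_form3 H _ le_rfl m n _

end Pool.Agent.H43.TateC
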