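import Mathlib

/-!
# Cycle classes on affine schemes of finite type over `F_p`

`Theory p` collects known facts about

* `C.H A j`: the Chow group `CH_j(Spec A) ⊗ Q_ℓ` of cycles of dimension `j`,
* `V.H A j`: the generalised eigenspace of Frobenius for the eigenvalue `1` in the Borel-Moore
  homology `H_{2j}(Spec A ⊗ k, Q_ℓ(-j))`, `k` an algebraic closure of `F_p`,
* `cl A j`: the cycle class map,

for finitely generated `F_p`-algebras `A`, and, for smooth projective varieties `X` of dimension `n` over
finitely generated fields `K` of characteristic `p`,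

* `CX X j`: the Chow group `CH_j(X) ⊗ Q_ℓ`,
* `VX X j`: the largest submodule of `H^{2n-2j}(X ⊗ K_sep, Q_ℓ(n-j))` on which the Galois group acts
  unipotently (the generalised eigenspace of Frobenius for the eigenvalue `1` if `K` is finite),
* `clX X j`: the cycle class map.

All groups are `Q_ℓ`-vector spaces, only addition is used.
-/

set_option autoImplicit false

namespace Pool.Agent.H43.TateC

open CategoryTheory

/-- commutative `F_p`-algebras -/
abbrev Alg (p : ℕ) : Type 1 := CommAlgCat.{0} (ZMod p)

/-- the algebra `B` as an object of `Alg p` -/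
abbrev alg (p : ℕ) (B : Type) [CommRing B] [Algebra (ZMod p) B] : Alg p :=
  CommAlgCat.of (ZMod p) B

/-- the closed subscheme `h = 0` -/
noncomputable def quot {p : ℕ} (A : Alg p) (h : A) : Alg p := alg p (A ⧸ Ideal.span {h})

/-- the open subscheme `h ≠ 0` -/
noncomputable def away {p : ℕ} (A : Alg p) (h : A) : Alg p := alg p (Localization.Away h)

/-- the affine line -/
noncomputable def poly {p : ℕ} (A : Alg p) : Alg p := alg p (Polynomial A)

/-- finite type over `F_p` -/
def Ft {p : ℕ} (A : Alg p) : Prop := Algebra.FiniteType (ZMod p) A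

/-- the ring `F_p[x_1, ..., x_n, t, 1/t]` -/
abbrev Torus (p n : ℕ) : Type :=
  Localization.Away (MvPolynomial.X none : MvPolynomial (Option (Fin n)) (ZMod p))

/-- the ring `F_p[x_1, ..., x_n, t, 1/t]` -/
noncomputable def torusAlg (p n : ℕ) : Alg p := alg p (Torus p n)

/-- groups `H A j` (a Borel-Moore homology theory of `Spec A`) with their maps -/
structure Groups (p : ℕ) where
  /-- the groups -/
  H : Alg p → ℕ → AddCommGrpCat.{0}
  /-- isomorphisms -/
  iso : ∀ {A B : Alg p}, (A ≅ B) → ∀ j : ℕ, H A j ≅ H B j
  /-- push forward from the closed subscheme `h = 0` -/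
  push : ∀ (A : Alg p) (h : A) (j : ℕ), H (quot A h) j ⟶ H A j
  /-- restriction to the open subscheme `h ≠ 0` -/
  res : ∀ (A : Alg p) (h : A) (j : ℕ), H A j ⟶ H (away A h) j
  /-- the affine line over `Spec A` -/
  line : ∀ (A : Alg p) (j : ℕ), H A j ≅ H (poly A) (j + 1)

variable {p : ℕ}

/-- the localisation sequence `H (A / h) → H A → H A_h → 0` is exact -/
structure Groups.Exact (G : Groups p) : Prop where
  exact : ∀ (A : Alg p), Ft A → ∀ (h : A) (j : ℕ),
    (G.push A h j).hom.range = (G.res A h j).hom.ker
  surj : ∀ (A : Alg p), Ft A → ∀ (h : A) (j : ℕ), Function.Surjective (G.res A h j)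

/-- a cycle class map: it commutes with all maps -/
structure CycleMap (C V : Groups p) where
  /-- the cycle class map -/
  cl : ∀ (A : Alg p) (j : ℕ), C.H A j ⟶ V.H A j
  iso_cl : ∀ {A B : Alg p} (e : A ≅ B) (j : ℕ),
    (C.iso e j).hom ≫ cl B j = cl A j ≫ (V.iso e j).hom
  push_cl : ∀ (A : Alg p) (h : A) (j : ℕ), C.push A h j ≫ cl A j = cl (quot A h) j ≫ V.push A h j
  res_cl : ∀ (A : Alg p) (h : A) (j : ℕ), C.res A h j ≫ cl (away A h) j = cl A j ≫ V.res A h j
  line_cl : ∀ (A : Alg p) (j : ℕ),
    (C.line A j).hom ≫ cl (poly A) (j + 1) = cl A j ≫ (V.line A j).hom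

/-- the push forward by the zero section of the affine line vanishes -/
def Groups.ZeroSection (V : Groups p) : Prop :=
  ∀ (A : Alg p), Ft A → ∀ j : ℕ, V.push (poly A) (Polynomial.X : Polynomial A) j = 0

/-- if the open part is `F_p[x_1, ..., x_n, t, 1/t]`, the kernel of the push forward from the closed
part consists of classes of cycles; and the cycle class map of this ring is injective -/
def CycleMap.TorusRule {C V : Groups p} (M : CycleMap C V) : Prop :=
  (∀ (A : Alg p), Ft A → ∀ (h : A) (n : ℕ), Nonempty (away A h ≅ torusAlg p n) → ∀ j : ℕ,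
    (V.push A h j).hom.ker ≤ (M.cl (quot A h) j).hom.range) ∧
  ∀ n j : ℕ, Function.Injective (M.cl (torusAlg p n) j)

/-- the homology in degree `0` of an affine line over `Spec A` vanishes -/
def Groups.LineZero (V : Groups p) : Prop :=
  ∀ (A : Alg p), Ft A → ∀ x : V.H (poly A) 0, x = 0

/-- smooth projective varieties over finitely generated fields of characteristic `p` -/
structure Varieties where
  SP : Type
  /-- the ground field is finite -/
  Finite : SP → Prop
  /-- the dimension plus the transcendence degree of the ground field -/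
  dim : SP → ℕ
  CX : SP → ℕ → AddCommGrpCat.{0}
  VX : SP → ℕ → AddCommGrpCat.{0}
  clX : ∀ (X : SP) (j : ℕ), CX X j ⟶ VX X j

/-- `X` is the generic fibre of a variety of dimension `dim X`, which is a finite union of affine
locally closed pieces -/
def CycleMap.Pieces {C V : Groups p} (M : CycleMap C V) (W : Varieties) : Prop :=
  ∀ d : ℕ, (∀ (A : Alg p), Ft A → ringKrullDim A ≤ d → ∀ j : ℕ, Function.Surjective (M.cl A j)) →
    ∀ (X : W.SP), W.dim X ≤ d → ∀ j : ℕ, Function.Surjective (W.clX X j)

/-- alterations: `V.H A j` is spanned by images of smooth projective varieties over finite fields -/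
def CycleMap.Alteration {C V : Groups p} (M : CycleMap C V) (W : Varieties) : Prop :=
  ∀ (A : Alg p), Ft A → ∀ d : ℕ, ringKrullDim A ≤ d → ∀ j : ℕ, ∃ (n : ℕ) (X : Fin n → W.SP)
    (g : ∀ i, W.CX (X i) j ⟶ C.H A j) (f : ∀ i, W.VX (X i) j ⟶ V.H A j),
    (∀ i, W.Finite (X i) ∧ W.dim (X i) ≤ d) ∧
    (∀ i, g i ≫ M.cl A j = W.clX (X i) j ≫ f i) ∧ ⨆ i, (f i).hom.range = ⊤

/-- known facts on cycle classes; see the header of the file -/
structure Theory (p : ℕ) where
  C : Groups p
  V : Groups p
  W : Varieties
  M : CycleMap C V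
  exactC : C.Exact
  exactV : V.Exact
  zero_section : V.ZeroSection
  line_zero : V.LineZero
  torus_rule : M.TorusRule
  pieces : M.Pieces W
  alteration : M.Alteration W

/-- the strong Tate conjecture for `Spec A` (Jannsen): all of `V.H A j` comes from cycles -/
def Theory.Tate (T : Theory p) (A : Type) [CommRing A] [Algebra (ZMod p) A] : Prop :=
  ∀ j : ℕ, Function.Surjective (T.M.cl (alg p A) j)

/-- the strong Tate conjecture for a smooth projective variety -/
def Theory.TateX (T : Theory p) (X : T.W.SP) : Prop :=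
  ∀ j : ℕ, Function.Surjective (T.W.clX X j)

end Pool.Agent.H43.TateC
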