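import Pool.Agent.H43.TateC.Hom

/-! # From trilinear forms to all hypersurfaces, with a fixed number of variables `x` -/

set_option autoImplicit false

namespace Pool.Agent.H43.TateC

open MvPolynomial
open Pool.Agent.H70.Mono (stab)

section gate

variable {k : Type} [Field k] {ξ α β : Type}

/-- variables `x`, `y`, `z` -/
abbrev Vx (ξ α β : Type) : Type := ξ ⊕ α ⊕ β

/-- `x_i` -/
noncomputable def vx (k : Type) [Field k] (α β : Type) (i : ξ) : MvPolynomial (Vx ξ α β) k :=
  X (Sum.inl i)

/-- `y_a` -/
noncomputable def vy (k : Type) [Field k] (ξ β : Type) (a : α) : MvPolynomial (Vx ξ α β) k :=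
  X (Sum.inr (Sum.inl a))

/-- `z_b` -/
noncomputable def vz (k : Type) [Field k] (ξ α : Type) (b : β) : MvPolynomial (Vx ξ α β) k :=
  X (Sum.inr (Sum.inr b))

/-- two more variables `y`, two more variables `z` -/
noncomputable def up2 (k : Type) [Field k] (ξ α β : Type) :
    MvPolynomial (Vx ξ α β) k →ₐ[k] MvPolynomial (Vx ξ (α ⊕ Bool) (β ⊕ Bool)) k :=
  rename (Sum.map id (Sum.map Sum.inl Sum.inl))

/-- the gadget -/
noncomputable def gate (G K L : MvPolynomial (Vx ξ α β) k) :
    MvPolynomial (Vx ξ (α ⊕ Bool) (β ⊕ Bool)) k :=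
  up2 k ξ α β G + up2 k ξ α β K * vz k ξ _ (Sum.inr true) +
    vy k ξ _ (Sum.inr true) * vz k ξ _ (Sum.inr true) +
    vy k ξ _ (Sum.inr true) * vz k ξ _ (Sum.inr false) +
    vy k ξ _ (Sum.inr false) * vz k ξ _ (Sum.inr false) +
    vy k ξ _ (Sum.inr false) * up2 k ξ α β L

variable (G K L : MvPolynomial (Vx ξ α β) k)

/-- old variables -/
noncomputable def ol (k : Type) [Field k] (ξ α β : Type) :
    MvPolynomial (Vx ξ α β) k →ₐ[k] MvPolynomial ((Vx ξ α β ⊕ Bool) ⊕ Bool) k :=
  rename fun i => Sum.inl (Sum.inl i)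

/-- forward -/
noncomputable def gF : MvPolynomial (Vx ξ (α ⊕ Bool) (β ⊕ Bool)) k →ₐ[k]
    MvPolynomial ((Vx ξ α β ⊕ Bool) ⊕ Bool) k :=
  aeval (Sum.elim (fun i => X (Sum.inl (Sum.inl (Sum.inl i))))
    (Sum.elim
      (Sum.elim (fun a => X (Sum.inl (Sum.inl (Sum.inr (Sum.inl a)))))
        (fun c => if c then X (Sum.inl (Sum.inr true)) - ol k ξ α β K
          else X (Sum.inr true) + ol k ξ α β K))
      (Sum.elim (fun b => X (Sum.inl (Sum.inl (Sum.inr (Sum.inr b)))))
        (fun c => if c then X (Sum.inl (Sum.inr false)) - X (Sum.inr false) + ol k ξ α β L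
          else X (Sum.inr false) - ol k ξ α β L))))

/-- backward -/
noncomputable def gB : MvPolynomial ((Vx ξ α β ⊕ Bool) ⊕ Bool) k →ₐ[k]
    MvPolynomial (Vx ξ (α ⊕ Bool) (β ⊕ Bool)) k :=
  aeval (Sum.elim
    (Sum.elim (fun i => up2 k ξ α β (X i))
      (fun c => if c then vy k ξ _ (Sum.inr true) + up2 k ξ α β K
        else vz k ξ _ (Sum.inr true) + vz k ξ _ (Sum.inr false)))
    (fun c => if c then vy k ξ _ (Sum.inr false) - up2 k ξ α β K
      else vz k ξ _ (Sum.inr false) + up2 k ξ α β L))

theorem gF_up (H : MvPolynomial (Vx ξ α β) k) : gF K L (up2 k ξ α β H) = ol k ξ α β H := by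
  refine mv_congr (f := (gF K L).comp (up2 k ξ α β)) (g := ol k ξ α β) ?_ H
  intro i
  unfold gF up2 ol
  rcases i with i | a | b <;> simp

theorem gB_ol (H : MvPolynomial (Vx ξ α β) k) : gB K L (ol k ξ α β H) = up2 k ξ α β H := by
  refine mv_congr (f := (gB K L).comp (ol k ξ α β)) (g := up2 k ξ α β) ?_ H
  intro i
  unfold gB ol
  simp

theorem gF_y (c : Bool) : gF K L (vy k ξ _ (Sum.inr c)) =
    if c then X (Sum.inl (Sum.inr true)) - ol k ξ α β K else X (Sum.inr true) + ol k ξ α β K := by
  unfold gF vy
  rw [aeval_X]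
  rfl

theorem gF_z (c : Bool) : gF K L (vz k ξ _ (Sum.inr c)) =
    if c then X (Sum.inl (Sum.inr false)) - X (Sum.inr false) + ol k ξ α β L
          else X (Sum.inr false) - ol k ξ α β L := by
  unfold gF vz
  rw [aeval_X]
  rfl

theorem gB_1 (c : Bool) : gB K L (X (Sum.inl (Sum.inr c))) =
    if c then vy k ξ _ (Sum.inr true) + up2 k ξ α β K
        else vz k ξ _ (Sum.inr true) + vz k ξ _ (Sum.inr false) := by
  unfold gB
  rw [aeval_X]
  rfl

theorem gB_2 (c : Bool) : gB K L (X (Sum.inr c)) =
    if c then vy k ξ _ (Sum.inr false) - up2 k ξ α β K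
      else vz k ξ _ (Sum.inr false) + up2 k ξ α β L := by
  unfold gB
  rw [aeval_X]
  rfl

/-- the coordinate change -/
noncomputable def gE : MvPolynomial (Vx ξ (α ⊕ Bool) (β ⊕ Bool)) k ≃ₐ[k]
    MvPolynomial ((Vx ξ α β ⊕ Bool) ⊕ Bool) k :=
  AlgEquiv.ofAlgHom (gF K L) (gB K L)
    (by
      apply algHom_ext
      intro i
      simp only [AlgHom.comp_apply, AlgHom.id_apply]
      rcases i with (i | c) | c
      · have h : (X (Sum.inl (Sum.inl i)) : MvPolynomial ((Vx ξ α β ⊕ Bool) ⊕ Bool) k) =
            ol k ξ α β (X i) := by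
          unfold ol
          rw [rename_X]
        rw [h, gB_ol, gF_up]
      · rw [gB_1]
        cases c
        · simp only [Bool.false_eq_true, if_false, map_add, gF_z, if_true]
          ring
        · simp only [if_true, map_add, gF_y, gF_up]
          ring
      · rw [gB_2]
        cases c
        · simp only [Bool.false_eq_true, if_false, map_add, gF_z, gF_up]
          ring
        · simp only [if_true, map_sub, gF_y, gF_up, Bool.false_eq_true, if_false]
          ring)
    (by
      apply algHom_ext
      intro i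
      simp only [AlgHom.comp_apply, AlgHom.id_apply]
      rcases i with i | (a | c) | (b | c)
      · have h : (X (Sum.inl i) : MvPolynomial (Vx ξ (α ⊕ Bool) (β ⊕ Bool)) k) =
            up2 k ξ α β (X (Sum.inl i)) := by
          unfold up2
          rw [rename_X]
          rfl
        rw [h, gF_up, gB_ol]
      · have h : (X (Sum.inr (Sum.inl (Sum.inl a))) :
            MvPolynomial (Vx ξ (α ⊕ Bool) (β ⊕ Bool)) k) =
            up2 k ξ α β (X (Sum.inr (Sum.inl a))) := by
          unfold up2
          rw [rename_X]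
          rfl
        rw [h, gF_up, gB_ol]
      · have h := gF_y K L c
        unfold vy at h
        rw [h]
        cases c
        · simp only [Bool.false_eq_true, if_false, map_add, gB_2, gB_ol, if_true]
          unfold vy
          ring
        · simp only [if_true, map_sub, gB_1, gB_ol]
          unfold vy
          ring
      · have h : (X (Sum.inr (Sum.inr (Sum.inl b))) :
            MvPolynomial (Vx ξ (α ⊕ Bool) (β ⊕ Bool)) k) =
            up2 k ξ α β (X (Sum.inr (Sum.inr b))) := by
          unfold up2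
          rw [rename_X]
          rfl
        rw [h, gF_up, gB_ol]
      · have h := gF_z K L c
        unfold vz at h
        rw [h]
        cases c
        · simp only [Bool.false_eq_true, if_false, map_sub, gB_2, gB_ol]
          unfold vz
          ring
        · simp only [if_true, map_sub, map_add, gB_1, gB_2, gB_ol, Bool.false_eq_true, if_false]
          unfold vz
          ring)

theorem gE_gate : gE K L (gate G K L) = stab k (stab k (G + K * L)) := by
  change gF K L (gate G K L) = _
  have h : stab k (stab k (G + K * L)) = ol k ξ α β (G + K * L) +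
      X (Sum.inl (Sum.inr true)) * X (Sum.inl (Sum.inr false)) +
      X (Sum.inr true) * X (Sum.inr false) := by
    unfold stab ol
    simp only [map_add, map_mul, rename_X, rename_rename]
    rfl
  rw [h]
  unfold gate
  simp only [map_add, map_mul, gF_up, gF_y, gF_z, if_true, Bool.false_eq_true, if_false]
  ring

end gate

variable {p : ℕ} [Fact p.Prime] {T : Theory p}

/-- **the gadget** -/
theorem Theory.Tate.of_gate {ξ α β : Type} [Finite ξ] [Finite α] [Finite β]
    {G K L : MvPolynomial (Vx ξ α β) (ZMod p)} (h : T.Tate (Hyp (gate G K L))) :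
    T.Tate (Hyp (G + K * L)) := by
  have h1 := h.equiv (gE K L)
  rw [gE_gate] at h1
  exact h1.of_stab.of_stab

end Pool.Agent.H43.TateC
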