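import Pool.Agent.H43.TateC.Stab

/-! # Homogenisation in one group of variables -/

set_option autoImplicit false

namespace Pool.Agent.H43.TateC

open MvPolynomial

section

variable {k : Type} [Field k] {σ : Type} (S : σ → Prop) [DecidablePred S]

/-- `x_0` goes to `x_0`, `x_i` to `x_0 x_i` for `i` in `S`, to `x_i` otherwise -/
noncomputable def theta (k : Type) [Field k] : MvPolynomial (Option σ) k →ₐ[k] MvPolynomial (Option σ) k :=
  aeval fun i : Option σ => i.elim (X none) fun i => if S i then X none * X (some i) else X (some i)

theorem theta_none : theta S k (X none) = X none := by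
  unfold theta
  rw [aeval_X]
  rfl

theorem theta_some (i : σ) : theta S k (X (some i)) =
    if S i then X none * X (some i) else X (some i) := by
  unfold theta
  rw [aeval_X]
  rfl

variable (F : MvPolynomial σ k) (G : MvPolynomial (Option σ) k)

/-- the ring `(P / F)[t, 1/t]` -/
abbrev LH (F : MvPolynomial σ k) : Type :=
  Localization.Away (Polynomial.X : Polynomial (Hyp F))

/-- the variables in `(P / F)[t, 1/t]` -/
noncomputable def eta : MvPolynomial (Option σ) k →ₐ[k] LH F :=
  aeval fun i : Option σ => i.elim (toL k (Polynomial.X : Polynomial (Hyp F)) Polynomial.X)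
    fun i => toL k (Polynomial.X : Polynomial (Hyp F)) (Polynomial.C (hmk F (X i)))

theorem eta_none : eta F (X none) = toL k (Polynomial.X : Polynomial (Hyp F)) Polynomial.X := by
  unfold eta
  rw [aeval_X]
  rfl

theorem eta_some (i : σ) : eta F (X (some i)) =
    toL k (Polynomial.X : Polynomial (Hyp F)) (Polynomial.C (hmk F (X i))) := by
  unfold eta
  rw [aeval_X]
  rfl

theorem eta_rename (H : MvPolynomial σ k) : eta F (rename some H) =
    toL k (Polynomial.X : Polynomial (Hyp F)) (Polynomial.C (hmk F H)) :=
  mv_congr (f := (eta F).comp (rename some))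
    (g := ((toL k (Polynomial.X : Polynomial (Hyp F))).comp (Polynomial.CAlgHom (R := k))).comp
      (hmk F))
    (fun i => by
      simp only [AlgHom.comp_apply, rename_X, eta_some]
      rfl) H

variable (hG : theta S k G = X none * rename some F)

include hG in
theorem eta_theta : ((eta F).comp (theta S k)) G = 0 := by
  rw [AlgHom.comp_apply, hG, map_mul, eta_rename, hmk_self, map_zero, map_zero, mul_zero]

/-- from the localisation of `Hyp G` -/
noncomputable def hF : Localization.Away (hmk G (X none)) →ₐ[k] LH F :=
  lLift _ (hLift G ((eta F).comp (theta S k)) (eta_theta S F G hG)) (by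
    rw [hLift_mk, AlgHom.comp_apply, theta_none, eta_none]
    exact isUnit_toL (k := k) _)

/-- the variables in the localisation of `Hyp G` -/
noncomputable def hM : MvPolynomial (Option σ) k →ₐ[k] Localization.Away (hmk G (X none)) :=
  (toL k (hmk G (X none))).comp (hmk G)

theorem hF_hM (H : MvPolynomial (Option σ) k) : hF S F G hG (hM G H) =
    eta F (theta S k H) := by
  unfold hF hM
  simp only [AlgHom.comp_apply]
  rw [toL_apply, lLift_alg, hLift_mk]
  rfl

/-- the inverse of `x_0` -/
noncomputable def hi : Localization.Away (hmk G (X none)) :=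
  IsLocalization.Away.invSelf (hmk G (X none))

theorem hi_mul : hM G (X none) * hi G = 1 :=
  IsLocalization.Away.mul_invSelf (hmk G (X none))

/-- `x_0` and `x_i / x_0` -/
noncomputable def zeta : MvPolynomial (Option σ) k →ₐ[k] Localization.Away (hmk G (X none)) :=
  aeval fun i : Option σ => i.elim (hM G (X none))
    fun i => if S i then hi G * hM G (X (some i)) else hM G (X (some i))

theorem zeta_none : zeta S G (X none) = hM G (X none) := by
  unfold zeta
  rw [aeval_X]
  rfl

theorem zeta_some (i : σ) : zeta S G (X (some i)) =
    if S i then hi G * hM G (X (some i)) else hM G (X (some i)) := by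
  unfold zeta
  rw [aeval_X]
  rfl

theorem zeta_theta (H : MvPolynomial (Option σ) k) : zeta S G (theta S k H) = hM G H :=
  mv_congr (f := (zeta S G).comp (theta S k)) (g := hM G)
    (fun i => by
      simp only [AlgHom.comp_apply]
      rcases i with _ | i
      · rw [theta_none, zeta_none]
      · rw [theta_some]
        split_ifs with h
        · rw [map_mul, zeta_none, zeta_some, if_pos h, ← mul_assoc, hi_mul, one_mul]
        · rw [zeta_some, if_neg h]) H

include hG in
theorem zeta_F : ((zeta S G).comp (rename some)) F = 0 := by
  have h := zeta_theta S G G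
  rw [hG, map_mul, zeta_none] at h
  have h1 : hM G G = 0 := by
    unfold hM
    rw [AlgHom.comp_apply, hmk_self, map_zero]
  rw [h1] at h
  have h2 := congrArg (fun z => hi G * z) h
  simp only [mul_zero, ← mul_assoc] at h2
  rw [mul_comm (hi G), hi_mul, one_mul] at h2
  exact h2

/-- to the localisation of `Hyp G` -/
noncomputable def hB : LH F →ₐ[k] Localization.Away (hmk G (X none)) :=
  lLift _ (pLift (hLift F ((zeta S G).comp (rename some)) (zeta_F S F G hG))
    (hM G (X none))) (by
      rw [pLift_X]
      exact isUnit_toL (k := k) _)

theorem hB_toL (a : Polynomial (Hyp F)) : hB S F G hG (toL k Polynomial.X a) =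
    pLift (hLift F ((zeta S G).comp (rename some)) (zeta_F S F G hG)) (hM G (X none)) a := by
  unfold hB
  rw [toL_apply, lLift_alg]

theorem hB_eta (H : MvPolynomial (Option σ) k) : hB S F G hG (eta F H) = zeta S G H :=
  mv_congr (f := (hB S F G hG).comp (eta F)) (g := zeta S G)
    (fun i => by
      simp only [AlgHom.comp_apply]
      rcases i with _ | i
      · rw [eta_none, hB_toL, pLift_X, zeta_none]
      · rw [eta_some, hB_toL, pLift_C, hLift_mk, AlgHom.comp_apply, rename_X]) H

theorem hM_eq_zeta (i : σ) : hM G (X (some i)) =
    zeta S G (theta S k (X (some i))) := (zeta_theta S G _).symm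

/-- `(Q / G)[1/x_0] = (P / F)[t, 1/t]` -/
noncomputable def homEquiv : Localization.Away (hmk G (X none)) ≃ₐ[k] LH F :=
  AlgEquiv.ofAlgHom (hF S F G hG) (hB S F G hG)
    (by
      apply l_ext
      intro a
      have key : ((hF S F G hG).comp (hB S F G hG)).comp (toL k Polynomial.X) =
          toL k (Polynomial.X : Polynomial (Hyp F)) := by
        have h1 : ∀ i, hF S F G hG (zeta S G (X (some i))) = eta F (X (some i)) := by
          intro i
          rw [zeta_some]
          split_ifs with h
          · rw [map_mul, hF_hM, theta_some, if_pos h, map_mul]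
            have h2 := congrArg (hF S F G hG) (hi_mul G)
            rw [map_mul, hF_hM, theta_none, map_one] at h2
            rw [← mul_assoc, mul_comm (hF S F G hG (hi G)), h2, one_mul]
          · rw [hF_hM, theta_some, if_neg h]
        apply p_ext
        · intro b
          obtain ⟨b, rfl⟩ := hmk_surj F b
          simp only [AlgHom.comp_apply]
          rw [hB_toL, pLift_C, hLift_mk, AlgHom.comp_apply]
          refine (mv_congr (f := ((hF S F G hG).comp (zeta S G)).comp (rename some))
            (g := (eta F).comp (rename some)) ?_ b).trans (eta_rename F b)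
          intro i
          simp only [AlgHom.comp_apply, rename_X]
          exact h1 i
        · simp only [AlgHom.comp_apply]
          rw [hB_toL, pLift_X, hF_hM, theta_none, eta_none]
      exact DFunLike.congr_fun key a)
    (by
      apply l_ext
      intro a
      obtain ⟨a, rfl⟩ := hmk_surj G a
      change hB S F G hG (hF S F G hG (hM G a)) = hM G a
      rw [hF_hM, hB_eta, zeta_theta])

end

variable {p : ℕ} [Fact p.Prime] {T : Theory p}

/-- from the homogenised polynomial back to the polynomial -/
theorem Theory.Tate.of_hom {σ : Type} [Finite σ] (S : σ → Prop) [DecidablePred S]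
    {F : MvPolynomial σ (ZMod p)} {G : MvPolynomial (Option σ) (ZMod p)}
    (hG : theta S (ZMod p) G = X none * rename some F) (h : T.Tate (Hyp G)) : T.Tate (Hyp F) := by
  have h1 := (h.loc (hmk G (X none))).iso (homEquiv S F G hG)
  exact h1.of_laurent

end Pool.Agent.H43.TateC
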