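import Pool.Agent.H43.TateC.RRules

/-! # Bilinear forms over a ring: elimination of a unit entry -/

set_option autoImplicit false

namespace Pool.Agent.H43.TateC.Rel

open MvPolynomial

section

variable {R : Type} [CommRing R] {α β α' β' : Type}

/-- `∑ B_{ab} y_a z_b` -/
noncomputable def form [Fintype α] [Fintype β] (B : α → β → R) : MvPolynomial (α ⊕ β) R :=
  ∑ a, ∑ b, C (B a b) * X (Sum.inl a) * X (Sum.inr b)

theorem map_form [Fintype α] [Fintype β] {R' : Type} [CommRing R'] (φ : R →+* R')
    (B : α → β → R) : map φ (form B) = form fun a b => φ (B a b) := by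
  unfold form
  rw [map_sum]
  refine Finset.sum_congr rfl fun a _ => ?_
  rw [map_sum]
  refine Finset.sum_congr rfl fun b _ => ?_
  rw [map_mul, map_mul, map_C, map_X, map_X]

theorem form_zero [Fintype α] [Fintype β] (B : α → β → R) (h : ∀ a b, B a b = 0) :
    form B = 0 := by
  unfold form
  refine Finset.sum_eq_zero fun a _ => Finset.sum_eq_zero fun b _ => ?_
  rw [h, map_zero, zero_mul, zero_mul]

theorem rename_form [Fintype α] [Fintype β] [Fintype α'] [Fintype β'] (e : α ≃ α') (f : β ≃ β')
    (B : α → β → R) : renameEquiv R (Equiv.sumCongr e f) (form B) =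
      form fun a b => B (e.symm a) (f.symm b) := by
  rw [renameEquiv_apply]
  unfold form
  rw [map_sum, ← e.sum_comp]
  refine Finset.sum_congr rfl fun a _ => ?_
  rw [map_sum, ← f.sum_comp]
  refine Finset.sum_congr rfl fun b _ => ?_
  change _ = C (B (e.symm (e a)) (f.symm (f b))) * _ * _
  rw [map_mul, map_mul, rename_C, rename_X, rename_X, e.symm_apply_apply, f.symm_apply_apply]
  rfl

section pivot

variable [Fintype α] [Fintype β] (B : Option α → Option β → R) (w : R)

/-- the variables `y`, `z`, `u`, `v` -/
noncomputable def py (R : Type) [CommRing R] (β : Type) (a : α) :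
    MvPolynomial ((α ⊕ β) ⊕ Bool) R := X (Sum.inl (Sum.inl a))

/-- `z` -/
noncomputable def pz (R : Type) [CommRing R] (α : Type) (b : β) :
    MvPolynomial ((α ⊕ β) ⊕ Bool) R := X (Sum.inl (Sum.inr b))

/-- forward -/
noncomputable def pF : MvPolynomial (Option α ⊕ Option β) R →ₐ[R]
    MvPolynomial ((α ⊕ β) ⊕ Bool) R :=
  aeval (Sum.elim
    (fun o => o.elim (C w * (X (Sum.inr true) - ∑ a, C (B (some a) none) * py R β a)) (py R β))
    (fun o => o.elim (X (Sum.inr false) - C w * ∑ b, C (B none (some b)) * pz R α b) (pz R α)))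

/-- backward -/
noncomputable def pB : MvPolynomial ((α ⊕ β) ⊕ Bool) R →ₐ[R]
    MvPolynomial (Option α ⊕ Option β) R :=
  aeval (Sum.elim (Sum.elim (fun a => X (Sum.inl (some a))) (fun b => X (Sum.inr (some b))))
    (fun c => if c then C (B none none) * X (Sum.inl none) +
        ∑ a, C (B (some a) none) * X (Sum.inl (some a))
      else X (Sum.inr none) + C w * ∑ b, C (B none (some b)) * X (Sum.inr (some b))))

theorem pF_y0 : pF B w (X (Sum.inl none)) =
    C w * (X (Sum.inr true) - ∑ a, C (B (some a) none) * py R β a) := by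
  unfold pF
  rw [aeval_X]
  rfl

theorem pF_z0 : pF B w (X (Sum.inr none)) =
    X (Sum.inr false) - C w * ∑ b, C (B none (some b)) * pz R α b := by
  unfold pF
  rw [aeval_X]
  rfl

theorem pF_y (a : α) : pF B w (X (Sum.inl (some a))) = py R β a := by
  unfold pF
  rw [aeval_X]
  rfl

theorem pF_z (b : β) : pF B w (X (Sum.inr (some b))) = pz R α b := by
  unfold pF
  rw [aeval_X]
  rfl

theorem pF_C (r : R) : pF B w (C r) = C r := (pF B w).commutes r

theorem pB_C (r : R) : pB B w (C r) = C r := (pB B w).commutes r

theorem pB_y (a : α) : pB B w (py R β a) = X (Sum.inl (some a)) := by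
  unfold pB py
  rw [aeval_X]
  rfl

theorem pB_z (b : β) : pB B w (pz R α b) = X (Sum.inr (some b)) := by
  unfold pB pz
  rw [aeval_X]
  rfl

theorem pB_u : pB B w (X (Sum.inr true)) = C (B none none) * X (Sum.inl none) +
        ∑ a, C (B (some a) none) * X (Sum.inl (some a)) := by
  unfold pB
  rw [aeval_X]
  rfl

theorem pB_v : pB B w (X (Sum.inr false)) =
    X (Sum.inr none) + C w * ∑ b, C (B none (some b)) * X (Sum.inr (some b)) := by
  unfold pB
  rw [aeval_X]
  rfl

variable (hw : w * B none none = 1)

/-- the coordinate change -/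
noncomputable def pE : MvPolynomial (Option α ⊕ Option β) R ≃ₐ[R]
    MvPolynomial ((α ⊕ β) ⊕ Bool) R :=
  AlgEquiv.ofAlgHom (pF B w) (pB B w)
    (by
      have hC : (C w * C (B none none) : MvPolynomial ((α ⊕ β) ⊕ Bool) R) = 1 := by
        rw [← C_mul, hw, C_1]
      apply algHom_ext
      rintro ((a | b) | c)
      · simp only [AlgHom.comp_apply, AlgHom.id_apply]
        have h := pB_y B w (a := a)
        unfold py at h
        rw [h, pF_y]
        rfl
      · simp only [AlgHom.comp_apply, AlgHom.id_apply]
        have h := pB_z B w (b := b)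
        unfold pz at h
        rw [h, pF_z]
        rfl
      · cases c
        · simp only [AlgHom.comp_apply, AlgHom.id_apply]
          rw [pB_v, map_add, map_mul, map_sum, pF_z0, pF_C]
          simp only [map_mul, pF_C, pF_z]
          ring
        · simp only [AlgHom.comp_apply, AlgHom.id_apply]
          rw [pB_u, map_add, map_mul, map_sum, pF_y0, pF_C]
          simp only [map_mul, pF_C, pF_y]
          linear_combination (X (Sum.inr true) - ∑ a, C (B (some a) none) * py R β a) * hC)
    (by
      have hC : (C w * C (B none none) : MvPolynomial (Option α ⊕ Option β) R) = 1 := by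
        rw [← C_mul, hw, C_1]
      apply algHom_ext
      rintro ((_ | a) | (_ | b))
      · simp only [AlgHom.comp_apply, AlgHom.id_apply]
        rw [pF_y0, map_mul, map_sub, map_sum, pB_u, pB_C]
        simp only [map_mul, pB_C, pB_y]
        linear_combination (X (Sum.inl none)) * hC
      · simp only [AlgHom.comp_apply, AlgHom.id_apply]
        rw [pF_y, pB_y]
      · simp only [AlgHom.comp_apply, AlgHom.id_apply]
        rw [pF_z0, map_sub, map_mul, map_sum, pB_v, pB_C]
        simp only [map_mul, pB_C, pB_z]
        ring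
      · simp only [AlgHom.comp_apply, AlgHom.id_apply]
        rw [pF_z, pB_z])

/-- the smaller matrix -/
def red (a : α) (b : β) : R := B (some a) (some b) - w * B (some a) none * B none (some b)

theorem pE_form : pE B w hw (form B) = stab R (form (red B w)) := by
  change pF B w (form B) = _
  have hC : (C w * C (B none none) : MvPolynomial ((α ⊕ β) ⊕ Bool) R) = 1 := by
    rw [← C_mul, hw, C_1]
  have h1 : form B = C (B none none) * X (Sum.inl none) * X (Sum.inr none) +
      X (Sum.inl none) * ∑ b, C (B none (some b)) * X (Sum.inr (some b)) +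
      (∑ a, C (B (some a) none) * X (Sum.inl (some a))) * X (Sum.inr none) +
      ∑ a, ∑ b, C (B (some a) (some b)) * X (Sum.inl (some a)) * X (Sum.inr (some b)) := by
    unfold form
    rw [Fintype.sum_option, Fintype.sum_option]
    simp only [Fintype.sum_option]
    rw [Finset.sum_add_distrib, Finset.mul_sum, Finset.sum_mul]
    have h2 : ∀ b : β, C (B none (some b)) * X (Sum.inl none) * X (Sum.inr (some b)) =
        (X (Sum.inl none) * (C (B none (some b)) * X (Sum.inr (some b))) :
          MvPolynomial (Option α ⊕ Option β) R) := fun b => by ring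
    simp only [h2]
    ring
  have h3 : rename Sum.inl (form (red B w)) =
      (∑ a, ∑ b, C (B (some a) (some b)) * py R β a * pz R α b) -
        C w * ((∑ a, C (B (some a) none) * py R β a) * ∑ b, C (B none (some b)) * pz R α b) := by
    unfold form red
    rw [map_sum, Finset.sum_mul_sum, Finset.mul_sum, ← Finset.sum_sub_distrib]
    refine Finset.sum_congr rfl fun a _ => ?_
    rw [map_sum, Finset.mul_sum, ← Finset.sum_sub_distrib]
    refine Finset.sum_congr rfl fun b _ => ?_
    rw [map_mul, map_mul, rename_C, rename_X, rename_X, C_sub, C_mul, C_mul]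
    unfold py pz
    ring
  rw [h1]
  unfold stab
  rw [h3]
  simp only [map_add, map_mul, map_sum, pF_C, pF_y0, pF_z0, pF_y, pF_z]
  obtain ⟨s, hs⟩ : ∃ s, s = ∑ a, C (B (some a) none) * py R β a := ⟨_, rfl⟩
  obtain ⟨t, ht⟩ : ∃ t, t = ∑ b, C (B none (some b)) * pz R α b := ⟨_, rfl⟩
  rw [← hs, ← ht]
  linear_combination ((X (Sum.inr true) - s) * (X (Sum.inr false) - C w * t)) * hC

end pivot

end

end Pool.Agent.H43.TateC.Rel
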