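import Pool.Agent.H43.TateC.RStab

/-! # Base change of hypersurfaces over a commutative ring -/

set_option autoImplicit false

namespace Pool.Agent.H43.TateC.Rel

open MvPolynomial

variable {k R R' S S' : Type} [CommRing k] [CommRing R] [Algebra k R] [CommRing R'] [Algebra k R']
  [CommRing S] [Algebra k S] [CommRing S'] [Algebra k S'] {σ : Type}

/-- maps out of `R[x]` -/
noncomputable def rLift (f : R →ₐ[k] S) (g : σ → S) : MvPolynomial σ R →ₐ[k] S :=
  { eval₂Hom (f : R →+* S) g with
    commutes' := by
      intro r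
      change eval₂Hom (f : R →+* S) g (algebraMap k (MvPolynomial σ R) r) = _
      rw [MvPolynomial.algebraMap_apply, eval₂Hom_C]
      exact f.commutes r }

theorem rLift_C (f : R →ₐ[k] S) (g : σ → S) (r : R) : rLift f g (C r) = f r :=
  eval₂Hom_C (f : R →+* S) g r

theorem rLift_X (f : R →ₐ[k] S) (g : σ → S) (i : σ) : rLift f g (X i) = g i :=
  eval₂Hom_X' (f : R →+* S) g i

theorem r_ext {f g : MvPolynomial σ R →ₐ[k] S} (hC : ∀ r, f (C r) = g (C r))
    (hX : ∀ i, f (X i) = g (X i)) : f = g := by
  apply AlgHom.coe_ringHom_injective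
  apply MvPolynomial.ringHom_ext
  · exact hC
  · exact hX

theorem rLift_map (φ : R →ₐ[k] R') (f : R' →ₐ[k] S) (g : σ → S) (F : MvPolynomial σ R) :
    rLift f g (map (φ : R →+* R') F) = rLift (f.comp φ) g F := by
  induction F using MvPolynomial.induction_on with
  | C c =>
    rw [map_C, rLift_C, rLift_C]
    rfl
  | add F G hF hG => rw [map_add, map_add, map_add, hF, hG]
  | mul_X F i hF => rw [map_mul, map_mul, map_mul, hF, map_X, rLift_X, rLift_X]

theorem comp_rLift (ψ : S →ₐ[k] S') (f : R →ₐ[k] S) (g : σ → S) (F : MvPolynomial σ R) :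
    ψ (rLift f g F) = rLift (ψ.comp f) (fun i => ψ (g i)) F := by
  induction F using MvPolynomial.induction_on with
  | C c =>
    rw [rLift_C, rLift_C]
    rfl
  | add F G hF hG => rw [map_add, map_add, map_add, hF, hG]
  | mul_X F i hF => rw [map_mul, map_mul, map_mul, hF, rLift_X, rLift_X]

/-- the constants -/
noncomputable def cc (k : Type) [CommRing k] (R : Type) [CommRing R] [Algebra k R] (σ : Type) :
    R →ₐ[k] MvPolynomial σ R :=
  { (C : R →+* MvPolynomial σ R) with
    commutes' := by
      intro r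
      change C (algebraMap k R r) = _
      rw [MvPolynomial.algebraMap_apply] }

theorem rLift_id (F : MvPolynomial σ R) : rLift (cc k R σ) X F = F := by
  have : rLift (cc k R σ) X = AlgHom.id k (MvPolynomial σ R) := by
    apply r_ext
    · intro r
      rw [rLift_C]
      rfl
    · intro i
      rw [rLift_X]
      rfl
  rw [this]
  rfl

theorem eq_rLift (ψ : MvPolynomial σ R →ₐ[k] S) (F : MvPolynomial σ R) :
    ψ F = rLift (ψ.comp (cc k R σ)) (fun i => ψ (X i)) F := by
  have h := comp_rLift ψ (cc k R σ) X F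
  rw [rLift_id] at h
  exact h

/-- the projection -/
noncomputable def pj (k : Type) [CommRing k] {R : Type} [CommRing R] [Algebra k R] {σ : Type}
    (F : MvPolynomial σ R) : MvPolynomial σ R →ₐ[k] Hyp F :=
  Ideal.Quotient.mkₐ k (Ideal.span {F})

theorem pj_self (F : MvPolynomial σ R) : pj k F F = 0 :=
  Ideal.Quotient.eq_zero_iff_mem.2 (Ideal.mem_span_singleton_self F)

theorem pj_surj (F : MvPolynomial σ R) : Function.Surjective (pj k F) :=
  Ideal.Quotient.mkₐ_surjective k (Ideal.span {F})

/-- the constants -/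
noncomputable def cst (k : Type) [CommRing k] {R : Type} [CommRing R] [Algebra k R] {σ : Type}
    (F : MvPolynomial σ R) : R →ₐ[k] Hyp F := (pj k F).comp (cc k R σ)

/-- maps out of `R[x] / F` -/
noncomputable def yLift (F : MvPolynomial σ R) (f : R →ₐ[k] S) (g : σ → S)
    (h : rLift f g F = 0) : Hyp F →ₐ[k] S := qLift F (rLift f g) h

theorem yLift_pj (F : MvPolynomial σ R) (f : R →ₐ[k] S) (g : σ → S)
    (h : rLift f g F = 0) (G : MvPolynomial σ R) : yLift F f g h (pj k F G) = rLift f g G := rfl

theorem yLift_cst (F : MvPolynomial σ R) (f : R →ₐ[k] S) (g : σ → S)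
    (h : rLift f g F = 0) (r : R) : yLift F f g h (cst k F r) = f r :=
  rLift_C f g r

theorem y_ext {F : MvPolynomial σ R} {f g : Hyp F →ₐ[k] S} (hC : ∀ r, f (cst k F r) = g (cst k F r))
    (hX : ∀ i, f (pj k F (X i)) = g (pj k F (X i))) : f = g := by
  have h : f.comp (pj k F) = g.comp (pj k F) := by
    apply r_ext
    · exact hC
    · exact hX
  ext x
  obtain ⟨a, rfl⟩ := pj_surj (k := k) F x
  exact DFunLike.congr_fun h a

theorem rLift_zero (F : MvPolynomial σ R) (ψ : Hyp F →ₐ[k] S) :
    rLift (ψ.comp (cst k F)) (fun i => ψ (pj k F (X i))) F = 0 := by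
  have h := eq_rLift (ψ.comp (pj k F)) F
  rw [AlgHom.comp_apply, pj_self, map_zero] at h
  exact h.symm

section base

variable (F : MvPolynomial σ R) (φ : R →ₐ[k] R')

/-- change of the base -/
noncomputable def fw : Hyp F →ₐ[k] Hyp (map (φ : R →+* R') F) :=
  yLift F ((cst k (map (φ : R →+* R') F)).comp φ) (fun i => pj k (map (φ : R →+* R') F) (X i)) (by
    rw [← rLift_map]
    exact rLift_zero (map (φ : R →+* R') F) (AlgHom.id k _))

theorem fw_cst (r : R) : fw F φ (cst k F r) = cst k _ (φ r) := by
  unfold fw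
  rw [yLift_cst]
  rfl

theorem fw_X (i : σ) : fw F φ (pj k F (X i)) = pj k _ (X i) := by
  unfold fw
  rw [yLift_pj, rLift_X]

variable (f : R' →ₐ[k] S) (ψ : Hyp F →ₐ[k] S) (h : ∀ r, f (φ r) = ψ (cst k F r))

/-- maps out of the base change -/
noncomputable def bw : Hyp (map (φ : R →+* R') F) →ₐ[k] S :=
  yLift _ f (fun i => ψ (pj k F (X i))) (by
    rw [rLift_map]
    have h1 : f.comp φ = ψ.comp (cst k F) := AlgHom.ext h
    rw [h1]
    exact rLift_zero F ψ)

theorem bw_cst (r : R') : bw F φ f ψ h (cst k _ r) = f r := by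
  unfold bw
  rw [yLift_cst]

theorem bw_X (i : σ) : bw F φ f ψ h (pj k _ (X i)) = ψ (pj k F (X i)) := by
  unfold bw
  rw [yLift_pj, rLift_X]

theorem bw_fw (x : Hyp F) : bw F φ f ψ h (fw F φ x) = ψ x := by
  have h1 : (bw F φ f ψ h).comp (fw F φ) = ψ := by
    apply y_ext
    · intro r
      rw [AlgHom.comp_apply, fw_cst, bw_cst, h]
    · intro i
      rw [AlgHom.comp_apply, fw_X, bw_X]
  exact DFunLike.congr_fun h1 x

end base

section

variable (F : MvPolynomial σ R) (b : R)

/-- `R / b` -/
noncomputable def mq (k : Type) [CommRing k] {R : Type} [CommRing R] [Algebra k R] (b : R) :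
    R →ₐ[k] R ⧸ Ideal.span {b} := Ideal.Quotient.mkₐ k _

theorem mq_self : mq k b b = 0 :=
  Ideal.Quotient.eq_zero_iff_mem.2 (Ideal.mem_span_singleton_self b)

theorem qLift_mq (f : R →ₐ[k] S) (h : f b = 0) (r : R) : qLift b f h (mq k b r) = f r := rfl

/-- the map from the closed part -/
noncomputable def qF : (Hyp F ⧸ Ideal.span {cst k F b}) →ₐ[k]
    Hyp (map (mq k b : R →+* R ⧸ Ideal.span {b}) F) :=
  qLift (cst k F b) (fw F (mq k b)) (by rw [fw_cst, mq_self, map_zero])

theorem qF_mq (x : Hyp F) : qF F b (mq k (cst k F b) x) = fw F (mq k b) x := rfl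

/-- the map from the base to the closed part -/
noncomputable def qR : (R ⧸ Ideal.span {b}) →ₐ[k] (Hyp F ⧸ Ideal.span {cst k F b}) :=
  qLift b ((mq k (cst k F b)).comp (cst k F)) (mq_self (k := k) (cst k F b))

theorem qR_mq (r : R) : qR (k := k) F b (mq k b r) = mq k (cst k F b) (cst k F r) := rfl

/-- the map to the closed part -/
noncomputable def qB : Hyp (map (mq k b : R →+* R ⧸ Ideal.span {b}) F) →ₐ[k]
    (Hyp F ⧸ Ideal.span {cst k F b}) :=
  bw F (mq k b) (qR F b) (mq k (cst k F b)) (qR_mq F b)

/-- the closed part of the base -/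
noncomputable def qBase :
    (Hyp F ⧸ Ideal.span {cst k F b}) ≃ₐ[k] Hyp (map (mq k b : R →+* R ⧸ Ideal.span {b}) F) :=
  AlgEquiv.ofAlgHom (qF F b) (qB F b)
    (by
      apply y_ext
      · intro r
        obtain ⟨r, rfl⟩ := Ideal.Quotient.mk_surjective r
        change qF F b (qB F b (cst k _ (mq k b r))) = cst k _ (mq k b r)
        unfold qB
        rw [bw_cst, qR_mq, qF_mq, fw_cst]
      · intro i
        change qF F b (qB F b (pj k _ (X i))) = pj k _ (X i)
        unfold qB
        rw [bw_X, qF_mq, fw_X])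
    (by
      apply q_ext
      ext x
      change qB F b (qF F b (mq k _ x)) = mq k _ x
      rw [qF_mq]
      unfold qB
      rw [bw_fw])

/-- the map from the open part -/
noncomputable def lF : Localization.Away (cst k F b) →ₐ[k]
    Hyp (map (toL k b : R →+* Localization.Away b) F) :=
  lLift (cst k F b) (fw F (toL k b)) (by
    rw [fw_cst]
    exact (isUnit_toL (k := k) b).map (cst k (map (toL k b : R →+* Localization.Away b) F)))

theorem lF_toL (x : Hyp F) : lF F b (toL k (cst k F b) x) = fw F (toL k b) x := by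
  unfold lF
  rw [toL_apply, lLift_alg]

/-- the map from the base to the open part -/
noncomputable def lR : Localization.Away b →ₐ[k] Localization.Away (cst k F b) :=
  lLift b ((toL k (cst k F b)).comp (cst k F)) (isUnit_toL (k := k) _)

theorem lR_toL (r : R) : lR (k := k) F b (toL k b r) = toL k (cst k F b) (cst k F r) := by
  unfold lR
  rw [toL_apply, lLift_alg]
  rfl

/-- the map to the open part -/
noncomputable def lB : Hyp (map (toL k b : R →+* Localization.Away b) F) →ₐ[k]
    Localization.Away (cst k F b) :=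
  bw F (toL k b) (lR F b) (toL k (cst k F b)) (lR_toL F b)

/-- the open part of the base -/
noncomputable def lBase :
    Localization.Away (cst k F b) ≃ₐ[k] Hyp (map (toL k b : R →+* Localization.Away b) F) :=
  AlgEquiv.ofAlgHom (lF F b) (lB F b)
    (by
      apply y_ext
      · intro r
        have h : ((lF F b).comp (lB F b)).comp (cst k _) =
            cst k (map (toL k b : R →+* Localization.Away b) F) := by
          apply l_ext
          intro a
          change lF F b (lB F b (cst k _ (toL k b a))) = cst k _ (toL k b a)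
          unfold lB
          rw [bw_cst, lR_toL, lF_toL, fw_cst]
        exact DFunLike.congr_fun h r
      · intro i
        change lF F b (lB F b (pj k _ (X i))) = pj k _ (X i)
        unfold lB
        rw [bw_X, lF_toL, fw_X])
    (by
      apply l_ext
      intro a
      change lB F b (lF F b (toL k _ a)) = toL k _ a
      rw [lF_toL]
      unfold lB
      rw [bw_fw])

end

end Pool.Agent.H43.TateC.Rel
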