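import Pool.Agent.H43.TateC.RBase

/-! # The Tate property of hypersurfaces over a ring -/

set_option autoImplicit false

namespace Pool.Agent.H43.TateC.Rel

open MvPolynomial

variable {p : ℕ} [Fact p.Prime] {T : Theory p}
  {R : Type} [CommRing R] [Algebra (ZMod p) R]

instance ft_mv {σ : Type} [Finite σ] [Algebra.FiniteType (ZMod p) R] :
    Algebra.FiniteType (ZMod p) (MvPolynomial σ R) :=
  Algebra.FiniteType.trans (S := R) inferInstance inferInstance

instance ft_hyp {σ : Type} [Finite σ] [Algebra.FiniteType (ZMod p) R] (F : MvPolynomial σ R) :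
    Algebra.FiniteType (ZMod p) (Hyp F) :=
  Algebra.FiniteType.of_surjective (pj (ZMod p) F) (pj_surj F)

instance ft_loc {A : Type} [CommRing A] [Algebra (ZMod p) A] [Algebra.FiniteType (ZMod p) A]
    (s : A) : Algebra.FiniteType (ZMod p) (Localization.Away s) :=
  Algebra.FiniteType.trans (S := A) inferInstance
    (IsLocalization.finiteType_of_monoid_fg (Submonoid.powers s) _)

theorem tate_mv [Algebra.FiniteType (ZMod p) R] (h : T.Tate R) (τ : Type) [Finite τ] :
    T.Tate (MvPolynomial τ R) := by
  induction τ using Finite.induction_empty_option with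
  | of_equiv e ih => exact ih.iso ((renameEquiv R e).restrictScalars (ZMod p))
  | h_empty => exact h.iso ((isEmptyAlgEquiv R PEmpty).symm.restrictScalars (ZMod p))
  | @h_option τ _ ih => exact ih.line.iso ((optionEquivLeft R τ).symm.restrictScalars (ZMod p))

/-- the polynomial `0` -/
theorem tate_zero [Algebra.FiniteType (ZMod p) R] (h : T.Tate R) (τ : Type) [Finite τ] :
    T.Tate (Hyp (0 : MvPolynomial τ R)) := by
  refine (tate_mv h τ).iso ?_
  refine AlgEquiv.ofAlgHom (pj (ZMod p) 0) (qLift 0 (AlgHom.id (ZMod p) _) rfl) ?_ ?_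
  · apply y_ext
    · intro r
      rfl
    · intro i
      rfl
  · apply r_ext
    · intro r
      rfl
    · intro i
      rfl

/-- `F + u v` -/
theorem tate_stab [Algebra.FiniteType (ZMod p) R] (h : T.Tate R) {σ : Type} [Finite σ]
    {F : MvPolynomial σ R} (hF : T.Tate (Hyp F)) : T.Tate (Hyp (stab R F)) := by
  refine Theory.Tate.glue (uu F) ?_ ?_
  · exact hF.line.iso ((closedEquiv F).symm.restrictScalars (ZMod p))
  · exact ((tate_mv h (Option σ)).loc (X none)).iso
      ((openEquiv F (Equiv.refl σ)).symm.restrictScalars (ZMod p))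

theorem tate_base [Algebra.FiniteType (ZMod p) R] {σ : Type} [Finite σ]
    {F : MvPolynomial σ R} (b : R)
    (h1 : T.Tate (Hyp (map (mq (ZMod p) b : R →+* R ⧸ Ideal.span {b}) F)))
    (h2 : T.Tate (Hyp (map (toL (ZMod p) b : R →+* Localization.Away b) F))) :
    T.Tate (Hyp F) := by
  refine Theory.Tate.glue (cst (ZMod p) F b) ?_ ?_
  · exact h1.iso (qBase F b).symm
  · exact h2.iso (lBase F b).symm

/-- a coordinate change over `R` -/
theorem tate_equiv {σ τ : Type} {F : MvPolynomial σ R} (h : T.Tate (Hyp F))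
    (e : MvPolynomial σ R ≃ₐ[R] MvPolynomial τ R) (G : MvPolynomial τ R) (hG : e F = G) :
    T.Tate (Hyp G) :=
  h.iso (qEquiv (e.restrictScalars (ZMod p)) F G hG)

end Pool.Agent.H43.TateC.Rel
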