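import Pool.Agent.H43.TateC.Rules
import Pool.Agent.H43.TateC.Alg

/-! # The cubic `F + u v` over a commutative ring -/

set_option autoImplicit false

namespace Pool.Agent.H43.TateC.Rel

open MvPolynomial

section

variable {k : Type} [CommRing k] {σ τ : Type}

/-- `F + u v` -/
noncomputable def stab (k : Type) [CommRing k] {σ : Type} (f : MvPolynomial σ k) :
    MvPolynomial (σ ⊕ Bool) k :=
  rename Sum.inl f + X (Sum.inr true) * X (Sum.inr false)

/-- the hypersurface `F = 0` -/
def Hyp (F : MvPolynomial σ k) : Type := MvPolynomial σ k ⧸ Ideal.span {F}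

noncomputable instance (F : MvPolynomial σ k) : CommRing (Hyp F) :=
  inferInstanceAs (CommRing (MvPolynomial σ k ⧸ Ideal.span {F}))

noncomputable instance {k' : Type} [CommRing k'] [Algebra k' k] (F : MvPolynomial σ k) :
    Algebra k' (Hyp F) :=
  inferInstanceAs (Algebra k' (MvPolynomial σ k ⧸ Ideal.span {F}))

instance {k' : Type} [CommRing k'] [Algebra k' k] (F : MvPolynomial σ k) :
    IsScalarTower k' k (Hyp F) :=
  inferInstanceAs (IsScalarTower k' k (MvPolynomial σ k ⧸ Ideal.span {F}))

/-- restriction of functions -/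
noncomputable def hmk (F : MvPolynomial σ k) : MvPolynomial σ k →ₐ[k] Hyp F :=
  Ideal.Quotient.mkₐ k (Ideal.span {F})

theorem hmk_surj (F : MvPolynomial σ k) : Function.Surjective (hmk F) :=
  Ideal.Quotient.mkₐ_surjective k (Ideal.span {F})

theorem hmk_self (F : MvPolynomial σ k) : hmk F F = 0 :=
  Ideal.Quotient.eq_zero_iff_mem.2 (Ideal.mem_span_singleton_self F)

/-- maps out of `Hyp F` -/
noncomputable def hLift {B : Type} [CommRing B] [Algebra k B] (F : MvPolynomial σ k)
    (f : MvPolynomial σ k →ₐ[k] B) (h : f F = 0) : Hyp F →ₐ[k] B := qLift F f h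

theorem hLift_mk {B : Type} [CommRing B] [Algebra k B] (F : MvPolynomial σ k)
    (f : MvPolynomial σ k →ₐ[k] B) (h : f F = 0) (G : MvPolynomial σ k) :
    hLift F f h (hmk F G) = f G := rfl

theorem h_ext {B : Type} [CommRing B] [Algebra k B] {F : MvPolynomial σ k} {f g : Hyp F →ₐ[k] B}
    (h : ∀ i, f (hmk F (X i)) = g (hmk F (X i))) : f = g := by
  ext x
  obtain ⟨a, rfl⟩ := hmk_surj F x
  exact mv_congr (f := f.comp (hmk F)) (g := g.comp (hmk F)) h a

/-- `u` in `P[u, v] / (F + u v)` -/
noncomputable def uu (F : MvPolynomial σ k) : Hyp (stab k F) := hmk _ (X (Sum.inr true))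

/-- `v` in `P[u, v] / (F + u v)` -/
noncomputable def vv (F : MvPolynomial σ k) : Hyp (stab k F) := hmk _ (X (Sum.inr false))

theorem F_eq (F : MvPolynomial σ k) : hmk (stab k F) (rename Sum.inl F) = - (uu F * vv F) := by
  have h := hmk_self (stab k F)
  unfold stab at h
  rw [map_add, map_mul] at h
  exact eq_neg_of_add_eq_zero_left h

section closed

variable (F : MvPolynomial σ k)

/-- `x, u, v` go to `x, 0, v` -/
noncomputable def cF0 : MvPolynomial (σ ⊕ Bool) k →ₐ[k] Polynomial (Hyp F) :=
  aeval (Sum.elim (fun i => Polynomial.C (hmk F (X i)))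
    (fun b => if b then 0 else Polynomial.X))

theorem cF0_inl (i : σ) : cF0 F (X (Sum.inl i)) = Polynomial.C (hmk F (X i)) := by
  unfold cF0
  rw [aeval_X]
  rfl

theorem cF0_true : cF0 F (X (Sum.inr true)) = 0 := by
  unfold cF0
  rw [aeval_X]
  rfl

theorem cF0_false : cF0 F (X (Sum.inr false)) = Polynomial.X := by
  unfold cF0
  rw [aeval_X]
  rfl

theorem cF0_rename (G : MvPolynomial σ k) : cF0 F (rename Sum.inl G) =
    Polynomial.C (hmk F G) :=
  mv_congr (f := (cF0 F).comp (rename Sum.inl))
    (g := (Polynomial.CAlgHom (R := k)).comp (hmk F))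
    (fun i => by
      simp only [AlgHom.comp_apply, rename_X, cF0_inl]
      rfl) G

theorem cF0_stab : cF0 F (stab k F) = 0 := by
  unfold stab
  rw [map_add, map_mul, cF0_true, zero_mul, add_zero, cF0_rename, hmk_self, map_zero]

/-- from the closed part to `(P / F)[v]` -/
noncomputable def cF : (Hyp (stab k F) ⧸ Ideal.span {uu F}) →ₐ[k] Polynomial (Hyp F) :=
  qLift (uu F) (hLift (stab k F) (cF0 F) (cF0_stab F)) (by
    unfold uu
    rw [hLift_mk, cF0_true])

/-- the variables in the closed part -/
noncomputable def cM : MvPolynomial (σ ⊕ Bool) k →ₐ[k] (Hyp (stab k F) ⧸ Ideal.span {uu F}) :=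
  (Ideal.Quotient.mkₐ k _).comp (hmk (stab k F))

theorem cF_cM (G : MvPolynomial (σ ⊕ Bool) k) : cF F (cM F G) = cF0 F G := rfl

theorem cM_u : cM F (X (Sum.inr true)) = 0 :=
  Ideal.Quotient.eq_zero_iff_mem.2 (Ideal.mem_span_singleton_self (uu F))

theorem cM_F : cM F (rename Sum.inl F) = 0 := by
  unfold cM
  simp only [AlgHom.comp_apply]
  rw [F_eq, map_neg, map_mul]
  have : Ideal.Quotient.mkₐ k (Ideal.span {uu F}) (uu F) = 0 := cM_u F
  rw [this, zero_mul, neg_zero]

/-- from `(P / F)[v]` to the closed part -/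
noncomputable def cB : Polynomial (Hyp F) →ₐ[k] (Hyp (stab k F) ⧸ Ideal.span {uu F}) :=
  pLift (hLift F ((cM F).comp (rename Sum.inl)) (cM_F F)) (cM F (X (Sum.inr false)))

theorem cB_C (G : MvPolynomial σ k) : cB F (Polynomial.C (hmk F G)) =
    cM F (rename Sum.inl G) := by
  unfold cB
  rw [pLift_C, hLift_mk]
  rfl

theorem cB_X : cB F Polynomial.X = cM F (X (Sum.inr false)) := by
  unfold cB
  rw [pLift_X]

/-- `P[u, v] / (F + u v, u) = (P / F)[v]` -/
noncomputable def closedEquiv :
    (Hyp (stab k F) ⧸ Ideal.span {uu F}) ≃ₐ[k] Polynomial (Hyp F) :=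
  AlgEquiv.ofAlgHom (cF F) (cB F)
    (by
      apply p_ext
      · intro a
        obtain ⟨a, rfl⟩ := hmk_surj F a
        simp only [AlgHom.comp_apply, AlgHom.id_apply]
        rw [cB_C, cF_cM, cF0_rename]
      · simp only [AlgHom.comp_apply, AlgHom.id_apply]
        rw [cB_X, cF_cM, cF0_false])
    (by
      apply q_ext
      apply h_ext
      intro i
      change cB F (cF0 F (X i)) = cM F (X i)
      rcases i with i | b
      · rw [cF0_inl, cB_C, rename_X]
      · cases b
        · rw [cF0_false, cB_X]
        · rw [cF0_true, map_zero, cM_u])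

end closed

section opn

variable (F : MvPolynomial σ k) (e : σ ≃ τ)

/-- `P[u, 1/u]` -/
abbrev Lau (k : Type) [CommRing k] (τ : Type) : Type :=
  Localization.Away (X none : MvPolynomial (Option τ) k)

/-- the inverse of `u` -/
noncomputable def ui (k : Type) [CommRing k] (τ : Type) : Lau k τ :=
  IsLocalization.Away.invSelf (X none : MvPolynomial (Option τ) k)

theorem ui_mul : toL k (X none : MvPolynomial (Option τ) k) (X none) * ui k τ = 1 :=
  IsLocalization.Away.mul_invSelf (X none : MvPolynomial (Option τ) k)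

/-- the values of `x` -/
noncomputable def oX : MvPolynomial σ k →ₐ[k] Lau k τ :=
  (toL k (X none : MvPolynomial (Option τ) k)).comp (rename fun i => some (e i))

/-- `x, u, v` go to `x, u, - F / u` -/
noncomputable def oF0 : MvPolynomial (σ ⊕ Bool) k →ₐ[k] Lau k τ :=
  aeval (Sum.elim (fun i => oX e (X i))
    (fun b => if b then toL k (X none : MvPolynomial (Option τ) k) (X none)
      else - (oX e F * ui k τ)))

theorem oF0_inl (i : σ) : oF0 F e (X (Sum.inl i)) = oX e (X i) := by
  unfold oF0
  rw [aeval_X]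
  rfl

theorem oF0_true : oF0 F e (X (Sum.inr true)) =
    toL k (X none : MvPolynomial (Option τ) k) (X none) := by
  unfold oF0
  rw [aeval_X]
  rfl

theorem oF0_false : oF0 F e (X (Sum.inr false)) = - (oX e F * ui k τ) := by
  unfold oF0
  rw [aeval_X]
  rfl

theorem oF0_rename (G : MvPolynomial σ k) : oF0 F e (rename Sum.inl G) = oX e G :=
  mv_congr (f := (oF0 F e).comp (rename Sum.inl)) (g := oX e)
    (fun i => by
      simp only [AlgHom.comp_apply, rename_X, oF0_inl]) G

theorem oF0_stab : oF0 F e (stab k F) = 0 := by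
  unfold stab
  rw [map_add, map_mul, oF0_true, oF0_false, oF0_rename]
  linear_combination (-oX e F) * ui_mul (k := k) (τ := τ)

/-- from the open part to `P[u, 1/u]` -/
noncomputable def oF : Localization.Away (uu F) →ₐ[k] Lau k τ :=
  lLift (uu F) (hLift (stab k F) (oF0 F e) (oF0_stab F e)) (by
    unfold uu
    rw [hLift_mk, oF0_true]
    exact isUnit_toL (k := k) _)

/-- the variables in the open part -/
noncomputable def oM : MvPolynomial (σ ⊕ Bool) k →ₐ[k] Localization.Away (uu F) :=
  (toL k (uu F)).comp (hmk (stab k F))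

theorem oF_oM (G : MvPolynomial (σ ⊕ Bool) k) : oF F e (oM F G) = oF0 F e G := by
  unfold oF oM
  simp only [AlgHom.comp_apply]
  rw [toL_apply, lLift_alg, hLift_mk]

theorem oM_F : oM F (rename Sum.inl F) = - (oM F (X (Sum.inr true)) *
    oM F (X (Sum.inr false))) := by
  have h := congrArg (toL k (uu F)) (F_eq F)
  rw [map_neg, map_mul] at h
  exact h

/-- from `P[u, 1/u]` to the open part -/
noncomputable def oB : Lau k τ →ₐ[k] Localization.Away (uu F) :=
  lLift (X none) (aeval fun i : Option τ => i.elim (oM F (X (Sum.inr true)))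
    fun t => oM F (X (Sum.inl (e.symm t)))) (by
      rw [aeval_X]
      exact isUnit_toL (k := k) (uu F))

theorem oB_toL (i : Option τ) : oB F e (toL k _ (X i)) = i.elim (oM F (X (Sum.inr true)))
    fun t => oM F (X (Sum.inl (e.symm t))) := by
  unfold oB
  rw [toL_apply, lLift_alg, aeval_X]

theorem oB_oX (G : MvPolynomial σ k) : oB F e (oX e G) = oM F (rename Sum.inl G) :=
  mv_congr (f := (oB F e).comp (oX e)) (g := (oM F).comp (rename Sum.inl))
    (fun i => by
      unfold oX
      simp only [AlgHom.comp_apply, rename_X]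
      rw [oB_toL]
      simp) G

/-- `(P[u, v] / (F + u v))[1/u] = P[u, 1/u]` -/
noncomputable def openEquiv : Localization.Away (uu F) ≃ₐ[k] Lau k τ :=
  AlgEquiv.ofAlgHom (oF F e) (oB F e)
    (by
      apply l_ext
      intro a
      refine mv_congr (f := ((oF F e).comp (oB F e)).comp (toL k _)) (g := toL k _) ?_ a
      intro i
      simp only [AlgHom.comp_apply]
      rw [oB_toL]
      rcases i with _ | t
      · simp only [Option.elim_none]
        rw [oF_oM, oF0_true]
      · simp only [Option.elim_some]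
        rw [oF_oM, oF0_inl]
        unfold oX
        simp)
    (by
      apply l_ext
      intro a
      obtain ⟨a, rfl⟩ := hmk_surj _ a
      refine mv_congr (f := ((oB F e).comp (oF F e)).comp (oM F)) (g := oM F) ?_ a
      intro i
      simp only [AlgHom.comp_apply]
      rw [oF_oM]
      rcases i with i | b
      · rw [oF0_inl, oB_oX, rename_X]
      · cases b
        · rw [oF0_false, map_neg, map_mul, oB_oX, oM_F]
          have h := congrArg (oB F e) (ui_mul (k := k) (τ := τ))
          rw [map_mul, oB_toL, map_one] at h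
          simp only [Option.elim_none] at h
          linear_combination (oM F (X (Sum.inr false))) * h
        · rw [oF0_true, oB_toL]
          rfl)

end opn

end


end Pool.Agent.H43.TateC.Rel
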