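import Pool.Agent.H43.TateC.Hom
import Pool.Agent.H70.Mono.G2
import Pool.Agent.H97.Mono.G1

/-! # From all hypersurfaces to cubic ones -/

set_option autoImplicit false

namespace Pool.Agent.H43.TateC

open MvPolynomial
open Pool.Agent.H70.Mono (stab hyp Tri mapE mem_mapE hE hl hyp_eq hE_mapE hl_add hl_single hl_map
  hE_insert prod_map' wt1 wt1_decr exists_hyp)

/-- different vertices of an edge have different colours -/
def Rb {σ : Type} (κ : σ → Fin 3) (E : Finset (Finset σ)) : Prop :=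
  ∀ e ∈ E, Set.InjOn κ (e : Set σ)

/-- every edge has vertices of all colours in `C` -/
def Fl {σ : Type} (κ : σ → Fin 3) (C : Finset (Fin 3)) (E : Finset (Finset σ)) : Prop :=
  ∀ e ∈ E, ∀ c ∈ C, ∃ i ∈ e, κ i = c

section hom

variable {k : Type} [Field k] {σ : Type} (κ : σ → Fin 3) (c : Fin 3)

open Classical in
/-- add the vertex `none` to the edges without a vertex of colour `c` -/
noncomputable def up (e : Finset σ) : Finset (Option σ) :=
  if ∃ i ∈ e, κ i = c then e.map Function.Embedding.some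
    else insert none (e.map Function.Embedding.some)

theorem mem_up (e : Finset σ) (i : σ) : some i ∈ up κ c e ↔ i ∈ e := by
  classical
  unfold up
  split_ifs <;> simp

theorem none_mem_up (e : Finset σ) : none ∈ up κ c e ↔ ¬ ∃ i ∈ e, κ i = c := by
  classical
  unfold up
  split_ifs with h
  · constructor
    · intro h1
      simp at h1
    · intro h1
      exact absurd h h1
  · constructor
    · intro _
      exact h
    · intro _
      exact Finset.mem_insert_self _ _

theorem up_inj : Function.Injective (up κ c) := by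
  intro e e' h
  ext i
  rw [← mem_up κ c e, h, mem_up]

theorem some_notMem (e : Finset σ) : none ∉ e.map Function.Embedding.some := by
  simp

open Classical in
theorem theta_up {e : Finset σ} (he : Set.InjOn κ (e : Set σ)) :
    theta (fun i => κ i = c) k (∏ i ∈ up κ c e, X i) = X none * rename some (∏ i ∈ e, X i) := by
  have h1 : theta (fun i => κ i = c) k (∏ i ∈ e.map Function.Embedding.some, X i) =
      X none ^ (e.filter fun i => κ i = c).card * rename some (∏ i ∈ e, X i) := by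
    rw [Finset.prod_map, map_prod, map_prod]
    have h2 : ∀ i, theta (fun i => κ i = c) k (X (Function.Embedding.some i)) =
        (if κ i = c then X none else 1) * rename some (X i : MvPolynomial σ k) := by
      intro i
      rw [rename_X]
      change theta (fun i => κ i = c) k (X (some i)) = _
      rw [theta_some]
      split_ifs
      · rfl
      · rw [one_mul]
    rw [Finset.prod_congr rfl fun i _ => h2 i, Finset.prod_mul_distrib, Finset.prod_ite,
      Finset.prod_const, Finset.prod_const_one, mul_one]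
  unfold up
  split_ifs with h
  · rw [h1]
    obtain ⟨i, hi, hc⟩ := h
    have h3 : e.filter (fun i => κ i = c) = {i} := by
      ext j
      rw [Finset.mem_filter, Finset.mem_singleton]
      constructor
      · rintro ⟨hj, hjc⟩
        exact he hj hi (hjc.trans hc.symm)
      · rintro rfl
        exact ⟨hi, hc⟩
    rw [h3, Finset.card_singleton, pow_one]
  · rw [Finset.prod_insert (some_notMem e), map_mul, theta_none, h1]
    have h3 : e.filter (fun i => κ i = c) = ∅ := by
      rw [Finset.filter_eq_empty_iff]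
      intro i hi hc
      exact h ⟨i, hi, hc⟩
    rw [h3, Finset.card_empty, pow_zero, one_mul]

open Classical in
theorem theta_hE {E : Finset (Finset σ)} (hE' : Rb κ E) :
    theta (fun i => κ i = c) k (hE k (E.map ⟨up κ c, up_inj κ c⟩)) =
      X none * rename some (hE k E) := by
  unfold hE
  rw [Finset.sum_map, map_sum, map_sum, Finset.mul_sum]
  exact Finset.sum_congr rfl fun e he => theta_up κ c (hE' e he)

/-- the new colouring -/
def upκ (i : Option σ) : Fin 3 := i.elim c κ

theorem rb_up {E : Finset (Finset σ)} (hE' : Rb κ E) :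
    Rb (upκ κ c) (E.map ⟨up κ c, up_inj κ c⟩) := by
  intro a ha
  obtain ⟨e, he, rfl⟩ := Finset.mem_map.1 ha
  simp only [Function.Embedding.coeFn_mk]
  intro i hi j hj hij
  have hi' : i ∈ up κ c e := hi
  have hj' : j ∈ up κ c e := hj
  rcases i with _ | i <;> rcases j with _ | j
  · rfl
  · exact absurd ⟨j, (mem_up κ c e j).1 hj', hij.symm⟩ ((none_mem_up κ c e).1 hi')
  · exact absurd ⟨i, (mem_up κ c e i).1 hi', hij⟩ ((none_mem_up κ c e).1 hj')
  · exact congrArg some (hE' e he ((mem_up κ c e i).1 hi') ((mem_up κ c e j).1 hj') hij)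

theorem fl_up {C : Finset (Fin 3)} {E : Finset (Finset σ)} (hE' : Fl κ C E) :
    Fl (upκ κ c) (insert c C) (E.map ⟨up κ c, up_inj κ c⟩) := by
  classical
  intro a ha d hd
  obtain ⟨e, he, rfl⟩ := Finset.mem_map.1 ha
  simp only [Function.Embedding.coeFn_mk]
  rcases Finset.mem_insert.1 hd with rfl | hd
  · by_cases h : ∃ i ∈ e, κ i = d
    · obtain ⟨i, hi, hc⟩ := h
      exact ⟨some i, (mem_up κ d e i).2 hi, hc⟩
    · exact ⟨none, (none_mem_up κ d e).2 h, rfl⟩
  · obtain ⟨i, hi, hc⟩ := hE' e he d hd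
    exact ⟨some i, (mem_up κ c e i).2 hi, hc⟩

end hom

variable {p : ℕ} [Fact p.Prime] {T : Theory p}

/-- homogenisation in the colour `c` -/
theorem tate_up {σ : Type} [Finite σ] (κ : σ → Fin 3) (c : Fin 3) {E : Finset (Finset σ)}
    (hE' : Rb κ E) (h : T.Tate (Hyp (hE (ZMod p) (E.map ⟨up κ c, up_inj κ c⟩)))) :
    T.Tate (Hyp (hE (ZMod p) E)) := by
  classical
  exact h.of_hom (fun i => κ i = c) (theta_hE κ c hE')

variable (T) in
/-- the Tate property for all cubics `∑_{e ∈ E} ∏_{i ∈ e} x_i`, `E` a 3-partite 3-graph -/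
def Cubics : Prop :=
  ∀ (n : ℕ) (κ : Fin n → Fin 3) (E : Finset (Finset (Fin n))),
    (∀ e ∈ E, e.card = 3 ∧ Set.InjOn κ (e : Set (Fin n))) →
    T.Tate (Hyp (hE (ZMod p) E))

theorem tate_full (H : Cubics T) {σ : Type} [Finite σ] (κ : σ → Fin 3) {E : Finset (Finset σ)}
    (h1 : Rb κ E) (h2 : Fl κ Finset.univ E) : T.Tate (Hyp (hE (ZMod p) E)) := by
  classical
  obtain ⟨n, ⟨f⟩⟩ := Finite.exists_equiv_fin σ
  have h3 := H n (κ ∘ f.symm) (mapE f.toEmbedding E) ?_
  · rw [hE_mapE] at h3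
    have h4 := h3.equiv (renameEquiv (ZMod p) f.symm)
    have h5 : (renameEquiv (ZMod p) f.symm) (rename f.toEmbedding (hE (ZMod p) E)) =
        hE (ZMod p) E := by
      rw [renameEquiv_apply, rename_rename]
      have : (⇑f.symm ∘ ⇑f.toEmbedding) = id := by
        funext i
        simp
      rw [this, rename_id_apply]
    rw [h5] at h4
    exact h4
  · intro a ha
    obtain ⟨e, he, rfl⟩ := (mem_mapE _ _ _).1 ha
    constructor
    · rw [Finset.card_map]
      have h4 : e.image κ = Finset.univ := by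
        ext c
        simp only [Finset.mem_image, Finset.mem_univ, iff_true]
        exact h2 e he c (Finset.mem_univ c)
      have h5 := Finset.card_image_of_injOn (h1 e he)
      rw [h4, Finset.card_univ, Fintype.card_fin] at h5
      exact h5.symm
    · intro i hi j hj hij
      obtain ⟨i', hi', rfl⟩ := Finset.mem_map.1 hi
      obtain ⟨j', hj', rfl⟩ := Finset.mem_map.1 hj
      simp only [Equiv.coe_toEmbedding, Function.comp_apply, Equiv.symm_apply_apply] at hij
      rw [h1 e he hi' hj' hij]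

theorem tate_rb (H : Cubics T) {σ : Type} [Finite σ] (κ : σ → Fin 3) {E : Finset (Finset σ)}
    (h1 : Rb κ E) : T.Tate (Hyp (hE (ZMod p) E)) := by
  classical
  apply tate_up κ 0 h1
  have r1 := rb_up κ 0 h1
  apply tate_up _ 1 r1
  have r2 := rb_up _ 1 r1
  apply tate_up _ 2 r2
  have r3 := rb_up _ 2 r2
  refine tate_full H _ r3 ?_
  have f0 : Fl κ ∅ E := fun e _ c hc => absurd hc (Finset.notMem_empty c)
  have f3 := fl_up _ 2 (fl_up _ 1 (fl_up _ 0 f0))
  have h4 : (insert 2 (insert 1 (insert 0 ∅)) : Finset (Fin 3)) = Finset.univ := by decide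
  rw [h4] at f3
  exact f3

/-- coefficients `0, 1` -/
theorem tate_one (H : Cubics T) {σ : Type} [Finite σ] (κ : σ → Fin 3) {E : Finset (Finset σ)}
    {ℓ : σ →₀ ZMod p} (h1 : Tri κ E) (h2 : ∀ i ∈ ℓ.support, ℓ i = 1) :
    T.Tate (Hyp (hyp E ℓ)) := by
  classical
  have h3 : hyp E ℓ = hE (ZMod p) (E ∪ ℓ.support.map ⟨fun i => {i},
      Finset.singleton_injective⟩) := by
    rw [hyp_eq]
    unfold hE
    rw [Finset.sum_union, Finset.sum_map]
    · congr 1
      unfold hl Finsupp.sum
      refine Finset.sum_congr rfl fun i hi => ?_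
      change C (ℓ i) * X i = ∏ j ∈ {i}, X j
      rw [h2 i hi, C_1, one_mul, Finset.prod_singleton]
    · rw [Finset.disjoint_left]
      intro e he he'
      obtain ⟨i, -, rfl⟩ := Finset.mem_map.1 he'
      have := (h1 _ he).1
      simp at this
  rw [h3]
  apply tate_rb H κ
  intro e he
  rcases Finset.mem_union.1 he with he | he
  · exact (h1 e he).2
  · obtain ⟨i, -, rfl⟩ := Finset.mem_map.1 he
    intro a ha b hb _
    simp at ha hb
    rw [ha, hb]

section move

variable {k : Type} [Field k] {σ : Type}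

/-- `u` goes to `u + x`, `v` goes to `v + d` -/
noncomputable def mv1 (x : σ) (d : k) :
    MvPolynomial (σ ⊕ Bool) k →ₐ[k] MvPolynomial (σ ⊕ Bool) k :=
  aeval (Sum.elim (fun i => X (Sum.inl i))
    (fun b => if b then X (Sum.inr true) + X (Sum.inl x) else X (Sum.inr false) + C d))

/-- `u` goes to `u - x`, `v` goes to `v - d` -/
noncomputable def mv2 (x : σ) (d : k) :
    MvPolynomial (σ ⊕ Bool) k →ₐ[k] MvPolynomial (σ ⊕ Bool) k :=
  aeval (Sum.elim (fun i => X (Sum.inl i))
    (fun b => if b then X (Sum.inr true) - X (Sum.inl x) else X (Sum.inr false) - C d))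

/-- an automorphism -/
noncomputable def mvE (x : σ) (d : k) :
    MvPolynomial (σ ⊕ Bool) k ≃ₐ[k] MvPolynomial (σ ⊕ Bool) k :=
  AlgEquiv.ofAlgHom (mv1 x d) (mv2 x d)
    (by
      apply MvPolynomial.algHom_ext
      rintro (i | b)
      · simp [mv1, mv2]
      · cases b <;> simp [mv1, mv2])
    (by
      apply MvPolynomial.algHom_ext
      rintro (i | b)
      · simp [mv1, mv2]
      · cases b <;> simp [mv1, mv2])

theorem mvE_stab (x : σ) (d : k) (F : MvPolynomial σ k) : mvE x d (stab k F) =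
    rename Sum.inl F + (X (Sum.inr true) + X (Sum.inl x)) * (X (Sum.inr false) + C d) := by
  unfold stab
  change mv1 x d _ = _
  rw [map_add, map_mul]
  have h1 : mv1 x d (rename Sum.inl F) = rename Sum.inl F :=
    mv_congr (f := (mv1 x d).comp (rename Sum.inl)) (g := rename Sum.inl)
      (fun i => by simp [mv1]) F
  rw [h1]
  simp [mv1]

open Classical in
/-- the new hypergraph -/
noncomputable def nE (x : σ) (E : Finset (Finset σ)) : Finset (Finset (σ ⊕ Bool)) :=
  insert {Sum.inr true, Sum.inr false} (insert {Sum.inl x, Sum.inr false}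
    (mapE ⟨Sum.inl, Sum.inl_injective⟩ E))

/-- the new linear form -/
noncomputable def nl (x : σ) (d : k) (ℓ : σ →₀ k) : (σ ⊕ Bool) →₀ k :=
  ℓ.mapDomain (⟨Sum.inl, Sum.inl_injective⟩ : σ ↪ σ ⊕ Bool) + Finsupp.single (Sum.inl x) d +
    Finsupp.single (Sum.inr true) d

theorem inr_notMem {E : Finset (Finset σ)} {a : Finset (σ ⊕ Bool)} {b : Bool}
    (h : Sum.inr b ∈ a) : a ∉ mapE (⟨Sum.inl, Sum.inl_injective⟩ : σ ↪ σ ⊕ Bool) E := by
  intro ha
  obtain ⟨e, -, rfl⟩ := (mem_mapE _ _ _).1 ha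
  obtain ⟨i, -, hi⟩ := Finset.mem_map.1 h
  exact Sum.inl_ne_inr hi

theorem hE_ins {τ : Type} [DecidableEq (Finset τ)] (E : Finset (Finset τ)) (a : Finset τ)
    (h : a ∉ E) : hE k (insert a E) = ∏ i ∈ a, X i + hE k E := Finset.sum_insert h

theorem mvE_hyp (x : σ) (d : k) (E : Finset (Finset σ)) (ℓ : σ →₀ k) :
    mvE x d (stab k (hyp E ℓ)) = hyp (nE x E) (nl x d ℓ) := by
  classical
  have h1 : ({Sum.inr true, Sum.inr false} : Finset (σ ⊕ Bool)) ∉
      insert {Sum.inl x, Sum.inr false} (mapE ⟨Sum.inl, Sum.inl_injective⟩ E) := by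
    rw [Finset.mem_insert]
    rintro (h | h)
    · have : (Sum.inr true : σ ⊕ Bool) ∈ ({Sum.inl x, Sum.inr false} : Finset (σ ⊕ Bool)) := by
        rw [← h]; simp
      simp at this
    · exact inr_notMem (b := true) (by simp) h
  have h2 : ({Sum.inl x, Sum.inr false} : Finset (σ ⊕ Bool)) ∉
      mapE ⟨Sum.inl, Sum.inl_injective⟩ E := inr_notMem (b := false) (by simp)
  rw [mvE_stab, hyp_eq, hyp_eq]
  unfold nl
  have h5 : hE k (insert {Sum.inr true, Sum.inr false} (insert {Sum.inl x, Sum.inr false}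
      (mapE (⟨Sum.inl, Sum.inl_injective⟩ : σ ↪ σ ⊕ Bool) E))) =
      X (Sum.inr true) * X (Sum.inr false) + (X (Sum.inl x) * X (Sum.inr false) +
        rename Sum.inl (hE k E)) := by
    rw [hE_ins _ _ h1, hE_ins _ _ h2, Finset.prod_pair (by simp), Finset.prod_pair (by simp),
      hE_mapE]
    rfl
  have h7 : nE x E = insert {Sum.inr true, Sum.inr false} (insert {Sum.inl x, Sum.inr false}
      (mapE (⟨Sum.inl, Sum.inl_injective⟩ : σ ↪ σ ⊕ Bool) E)) := by
    unfold nE
    congr!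
  rw [h7, h5, hl_add, hl_add, hl_single, hl_single]
  have h6 := hl_map (⟨Sum.inl, Sum.inl_injective⟩ : σ ↪ σ ⊕ Bool) ℓ
  rw [h6, map_add]
  change _ = _ + (rename Sum.inl (hl ℓ) + _ + _)
  ring

open Classical in
/-- the new colouring -/
noncomputable def nκ (κ : σ → Fin 3) (x : σ) : σ ⊕ Bool → Fin 3 :=
  Sum.elim κ fun b => if b then κ x else κ x + 1

theorem nκ_ne (κ : σ → Fin 3) (x : σ) : κ x ≠ κ x + 1 := by
  generalize κ x = c
  revert c
  decide

theorem tri_new {κ : σ → Fin 3} (x : σ) {E : Finset (Finset σ)} (h : Tri κ E) :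
    Tri (nκ κ x) (nE x E) := by
  classical
  have hne := nκ_ne κ x
  have hp : ∀ (a b : σ ⊕ Bool), a ≠ b → nκ κ x a ≠ nκ κ x b →
      2 ≤ ({a, b} : Finset (σ ⊕ Bool)).card ∧
        Set.InjOn (nκ κ x) (({a, b} : Finset (σ ⊕ Bool)) : Set (σ ⊕ Bool)) := by
    intro a b hab hk
    refine ⟨by rw [Finset.card_pair hab], ?_⟩
    intro i hi j hj hij
    simp only [Finset.coe_insert, Finset.coe_singleton, Set.mem_insert_iff,
      Set.mem_singleton_iff] at hi hj
    rcases hi with rfl | rfl <;> rcases hj with rfl | rfl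
    · rfl
    · exact absurd hij hk
    · exact absurd hij.symm hk
    · rfl
  intro a ha
  unfold nE at ha
  rcases Finset.mem_insert.1 ha with rfl | ha
  · exact hp _ _ (by simp) hne
  rcases Finset.mem_insert.1 ha with rfl | ha
  · exact hp _ _ (by simp) hne
  · obtain ⟨e, he, rfl⟩ := (mem_mapE _ _ _).1 ha
    obtain ⟨h1, h2⟩ := h e he
    refine ⟨by rwa [Finset.card_map], ?_⟩
    intro i hi j hj hij
    obtain ⟨i', hi', rfl⟩ := Finset.mem_map.1 hi
    obtain ⟨j', hj', rfl⟩ := Finset.mem_map.1 hj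
    rw [h2 hi' hj' hij]

theorem nl_inl_self (x : σ) (d : k) (ℓ : σ →₀ k) : nl x d ℓ (Sum.inl x) = ℓ x + d := by
  classical
  have h1 : ℓ.mapDomain (⟨Sum.inl, Sum.inl_injective⟩ : σ ↪ σ ⊕ Bool) (Sum.inl x) = ℓ x :=
    Finsupp.mapDomain_apply Sum.inl_injective ℓ x
  unfold nl
  rw [Finsupp.add_apply, Finsupp.add_apply, h1]
  simp

theorem nl_inl_ne (x : σ) (d : k) (ℓ : σ →₀ k) {i : σ} (h : i ≠ x) :
    nl x d ℓ (Sum.inl i) = ℓ i := by
  classical
  have h1 : ℓ.mapDomain (⟨Sum.inl, Sum.inl_injective⟩ : σ ↪ σ ⊕ Bool) (Sum.inl i) = ℓ i :=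
    Finsupp.mapDomain_apply Sum.inl_injective ℓ i
  unfold nl
  rw [Finsupp.add_apply, Finsupp.add_apply, h1]
  simp [Ne.symm h]

theorem nl_inr (x : σ) (d : k) (ℓ : σ →₀ k) (b : Bool) :
    nl x d ℓ (Sum.inr b) = if b then d else 0 := by
  classical
  have h1 : ℓ.mapDomain (⟨Sum.inl, Sum.inl_injective⟩ : σ ↪ σ ⊕ Bool) (Sum.inr b) = 0 := by
    apply Finsupp.mapDomain_of_notMem_range
    rintro ⟨i, hi⟩
    exact Sum.inl_ne_inr hi
  unfold nl
  rw [Finsupp.add_apply, Finsupp.add_apply, h1]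
  cases b <;> simp

end move

theorem tate_move {σ : Type} [Finite σ] (x : σ) (d : ZMod p) {E : Finset (Finset σ)}
    {ℓ : σ →₀ ZMod p} (h : T.Tate (Hyp (hyp (nE x E) (nl x d ℓ)))) : T.Tate (Hyp (hyp E ℓ)) := by
  rw [← mvE_hyp] at h
  have h1 := h.equiv (mvE x d).symm
  rw [AlgEquiv.symm_apply_apply] at h1
  exact h1.of_stab

/-- the excess of the coefficients of the linear form -/
def exc {σ : Type} [Fintype σ] (ℓ : σ →₀ ZMod p) : ℕ := ∑ i, ((ℓ i).val - 1)

theorem exc_nl {σ : Type} [Fintype σ] (x : σ) (d : ZMod p) (ℓ : σ →₀ ZMod p) :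
    exc (nl x d ℓ) + ((ℓ x).val - 1) = exc ℓ + ((ℓ x + d).val - 1) + (d.val - 1) := by
  classical
  unfold exc
  rw [Fintype.sum_sum_type, Fintype.sum_bool, nl_inr, nl_inr, if_pos rfl]
  have h0 : (if false = true then d else 0 : ZMod p).val - 1 = 0 := by simp
  rw [h0]
  have h1 := Finset.add_sum_erase Finset.univ (fun i => ((nl x d ℓ (Sum.inl i)).val - 1))
    (Finset.mem_univ x)
  have h2 := Finset.add_sum_erase Finset.univ (fun i => ((ℓ i).val - 1)) (Finset.mem_univ x)
  have h3 : ∑ i ∈ Finset.univ.erase x, ((nl x d ℓ (Sum.inl i)).val - 1) =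
      ∑ i ∈ Finset.univ.erase x, ((ℓ i).val - 1) := by
    refine Finset.sum_congr rfl fun i hi => ?_
    rw [nl_inl_ne x d ℓ (Finset.ne_of_mem_erase hi)]
  rw [nl_inl_self] at h1
  omega

theorem tate_exc (H : Cubics T) : ∀ (N : ℕ) (σ : Type) [Fintype σ] (κ : σ → Fin 3)
    (E : Finset (Finset σ)) (ℓ : σ →₀ ZMod p), Tri κ E → exc ℓ ≤ N →
    T.Tate (Hyp (hyp E ℓ)) := by
  intro N
  induction N with
  | zero =>
    intro σ _ κ E ℓ hT hN
    refine tate_one H κ hT fun i hi => ?_
    have h1 : (ℓ i).val - 1 = 0 :=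
      (Finset.sum_eq_zero_iff.1 (Nat.le_zero.1 hN)) i (Finset.mem_univ i)
    have h2 : ℓ i ≠ 0 := Finsupp.mem_support_iff.1 hi
    have h3 : (ℓ i).val ≠ 0 := fun h => h2 ((ZMod.val_eq_zero _).1 h)
    have h4 : (ℓ i).val = 1 := by omega
    have hp : 1 < p := (Fact.out : p.Prime).one_lt
    have : NeZero p := ⟨by omega⟩
    have h5 := ZMod.natCast_zmod_val (ℓ i)
    rw [h4] at h5
    rw [← h5]
    simp
  | succ N ih =>
    intro σ _ κ E ℓ hT hN
    by_cases h0 : exc ℓ ≤ N
    · exact ih σ κ E ℓ hT h0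
    obtain ⟨x, -, hx⟩ : ∃ x ∈ (Finset.univ : Finset σ), (ℓ x).val - 1 ≠ 0 := by
      apply Finset.exists_ne_zero_of_sum_ne_zero
      intro h
      exact h0 (by unfold exc; omega)
    have hp : 1 < p := (Fact.out : p.Prime).one_lt
    have : NeZero p := ⟨by omega⟩
    have hv : (ℓ x - 1).val = (ℓ x).val - 1 := by
      have h1 : (1 : ZMod p).val = 1 := ZMod.val_one'' (by omega)
      rw [ZMod.val_sub, h1]
      rw [h1]; omega
    apply tate_move x (1 - ℓ x)
    apply tate_move (Sum.inr true) (ℓ x - 1)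
    have e1 := exc_nl x (1 - ℓ x) ℓ
    have e2 := exc_nl (Sum.inr true) (ℓ x - 1) (nl x (1 - ℓ x) ℓ)
    rw [nl_inr, if_pos rfl] at e2
    have e3 : (ℓ x + (1 - ℓ x)).val = 1 := by
      rw [add_sub_cancel]
      exact ZMod.val_one'' (by omega)
    have e4 : (1 - ℓ x + (ℓ x - 1)).val = 0 := by
      rw [sub_add_sub_cancel, sub_self, ZMod.val_zero]
    refine ih _ _ _ _ (tri_new (Sum.inr true) (tri_new x hT)) ?_
    omega

theorem tate_wt (H : Cubics T) : ∀ (N : ℕ) (σ : Type) [Finite σ] (f : MvPolynomial σ (ZMod p))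
    (κ : σ → Fin 3), wt1 κ f ≤ N → T.Tate (Hyp f) := by
  intro N
  induction N with
  | zero =>
    intro σ _ f κ h
    obtain ⟨E, ℓ, hT, rfl⟩ := exists_hyp (Nat.le_zero.mp h)
    have : Fintype σ := Fintype.ofFinite σ
    exact tate_exc H _ σ κ E ℓ hT le_rfl
  | succ N ih =>
    intro σ _ f κ h
    by_cases h0 : wt1 κ f = 0
    · exact ih σ f κ (by omega)
    · obtain ⟨e, κ', h1⟩ := wt1_decr h0
      have h2 := (ih (σ ⊕ Bool) (e (stab _ f)) κ' (by omega)).equiv e.symm
      rw [AlgEquiv.symm_apply_apply] at h2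
      exact h2.of_stab

/-- all hypersurfaces -/
theorem tate_hyp (H : Cubics T) {σ : Type} [Finite σ] (f : MvPolynomial σ (ZMod p)) :
    T.Tate (Hyp f) := tate_wt H _ σ f (fun _ => 0) le_rfl

end Pool.Agent.H43.TateC
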