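import Pool.Agent.H43.TateC.Defs

/-! # Rules for the Tate property -/

set_option autoImplicit false

namespace Pool.Agent.H43.TateC

open CategoryTheory

variable {p : ℕ} [Fact p.Prime] (T : Theory p)

section

theorem sq {X Y Z W : AddCommGrpCat.{0}} {f : X ⟶ Y} {g : Y ⟶ Z} {f' : X ⟶ W} {g' : W ⟶ Z}
    (h : f ≫ g = f' ≫ g') (x : X) : g (f x) = g' (f' x) := ConcreteCategory.congr_hom h x

theorem isoInj {X Y : AddCommGrpCat.{0}} (e : X ≅ Y) : Function.Injective e.hom := by
  intro x y h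
  have h1 : ∀ z, e.inv (e.hom z) = z := fun z => ConcreteCategory.congr_hom e.hom_inv_id z
  rw [← h1 x, h, h1]

theorem isoInv {X Y : AddCommGrpCat.{0}} (e : X ≅ Y) (y : Y) : e.hom (e.inv y) = y :=
  ConcreteCategory.congr_hom e.inv_hom_id y

variable {A B : Type} [CommRing A] [Algebra (ZMod p) A] [CommRing B] [Algebra (ZMod p) B]

theorem Theory.Tate.iso {T : Theory p} (h : T.Tate A) (e : A ≃ₐ[ZMod p] B) : T.Tate B := by
  intro j y
  let e' : alg p A ≅ alg p B := CommAlgCat.isoMk e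
  obtain ⟨x, hx⟩ := h j ((T.V.iso e' j).inv y)
  refine ⟨(T.C.iso e' j).hom x, ?_⟩
  rw [sq (T.M.iso_cl e' j) x, hx, isoInv]

variable [hA : Algebra.FiniteType (ZMod p) A]

theorem Theory.Tate.loc {T : Theory p} (h : T.Tate A) (s : A) :
    T.Tate (Localization.Away s) := by
  intro j y
  obtain ⟨v, hv⟩ := T.exactV.surj (alg p A) hA s j y
  obtain ⟨x, hx⟩ := h j v
  refine ⟨T.C.res (alg p A) s j x, ?_⟩
  rw [← hv, ← hx]
  exact sq (T.M.res_cl (alg p A) s j) x

theorem Theory.Tate.lift {T : Theory p} (s : A) (h2 : T.Tate (Localization.Away s)) (j : ℕ)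
    (v : T.V.H (alg p A) j) : ∃ x w, T.V.push (alg p A) s j w = v - T.M.cl (alg p A) j x := by
  obtain ⟨y, hy⟩ := h2 j (T.V.res (alg p A) s j v)
  obtain ⟨x, hx⟩ := T.exactC.surj (alg p A) hA s j y
  have h3 : v - T.M.cl (alg p A) j x ∈ (T.V.res (alg p A) s j).hom.ker := by
    rw [AddMonoidHom.mem_ker, map_sub, sub_eq_zero]
    refine hy.symm.trans ?_
    rw [← hx]
    exact sq (T.M.res_cl (alg p A) s j) x
  rw [← T.exactV.exact (alg p A) hA s j] at h3
  obtain ⟨w, hw⟩ := h3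
  exact ⟨x, w, hw⟩

theorem Theory.Tate.glue {T : Theory p} (s : A) (h1 : T.Tate (A ⧸ Ideal.span {s}))
    (h2 : T.Tate (Localization.Away s)) : T.Tate A := by
  intro j v
  obtain ⟨x, w, hw⟩ := Theory.Tate.lift s h2 j v
  obtain ⟨z, hz⟩ := h1 j w
  refine ⟨T.C.push (alg p A) s j z + x, ?_⟩
  rw [map_add, sq (T.M.push_cl (alg p A) s j) z]
  have : T.V.push (alg p A) s j (T.M.cl (quot (alg p A) s) j z) = v - T.M.cl (alg p A) j x := by
    rw [← hw]
    exact congrArg _ hz
  rw [this, sub_add_cancel]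

omit hA in
theorem Theory.Tate.of_line {T : Theory p} (h : T.Tate (Polynomial A)) : T.Tate A := by
  intro j v
  obtain ⟨y, hy⟩ := h (j + 1) ((T.V.line (alg p A) j).hom v)
  refine ⟨(T.C.line (alg p A) j).inv y, isoInj (T.V.line (alg p A) j) ?_⟩
  rw [← sq (T.M.line_cl (alg p A) j), isoInv]
  exact hy

theorem Theory.Tate.of_laurent {T : Theory p}
    (h : T.Tate (Localization.Away (Polynomial.X : Polynomial A))) : T.Tate A := by
  apply Theory.Tate.of_line
  intro j v
  obtain ⟨x, w, hw⟩ := Theory.Tate.lift (Polynomial.X : Polynomial A) h j v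
  have h1 := T.zero_section (alg p A) hA j
  have h2 : T.V.push (alg p (Polynomial A)) (Polynomial.X : Polynomial A) j w = 0 :=
    ConcreteCategory.congr_hom h1 w
  rw [h2] at hw
  exact ⟨x, (sub_eq_zero.1 hw.symm).symm⟩

theorem Theory.Tate.line {T : Theory p} (h : T.Tate A) : T.Tate (Polynomial A) := by
  intro j v
  rcases j with _ | j
  · exact ⟨0, (T.line_zero (alg p A) hA v) ▸ map_zero _⟩
  · obtain ⟨x, hx⟩ := h j ((T.V.line (alg p A) j).inv v)
    refine ⟨(T.C.line (alg p A) j).hom x, ?_⟩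
    refine (sq (T.M.line_cl (alg p A) j) x).trans ?_
    rw [hx]
    exact isoInv _ _

/-- the closed part of a variety whose open part is `F_p[x_1, ..., x_n, t, 1/t]` -/
theorem Theory.Tate.closed {T : Theory p} (h : T.Tate A) (s : A) (n : ℕ)
    (e : Localization.Away s ≃ₐ[ZMod p] Torus p n) : T.Tate (A ⧸ Ideal.span {s}) := by
  let e' : away (alg p A) s ≅ torusAlg p n := CommAlgCat.isoMk e
  have hinj : ∀ j, Function.Injective (T.M.cl (away (alg p A) s) j) := by
    intro j x y hxy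
    apply isoInj (T.C.iso e' j)
    apply T.torus_rule.2 n j
    rw [sq (T.M.iso_cl e' j), sq (T.M.iso_cl e' j), hxy]
  suffices hs : ∀ j, Function.Surjective (T.M.cl (quot (alg p A) s) j) from hs
  intro j v
  obtain ⟨x, hx⟩ := h j (T.V.push (alg p A) s j v)
  have h1 : x ∈ (T.C.res (alg p A) s j).hom.ker := by
    rw [AddMonoidHom.mem_ker]
    apply hinj j
    rw [map_zero]
    refine (sq (T.M.res_cl (alg p A) s j) x).trans ?_
    rw [hx]
    have h2 : T.V.push (alg p A) s j v ∈ (T.V.res (alg p A) s j).hom.ker := by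
      rw [← T.exactV.exact (alg p A) hA s j]
      exact ⟨v, rfl⟩
    exact h2
  rw [← T.exactC.exact (alg p A) hA s j] at h1
  obtain ⟨y, hy⟩ := h1
  have h2 : v - T.M.cl (quot (alg p A) s) j y ∈ (T.V.push (alg p A) s j).hom.ker := by
    rw [AddMonoidHom.mem_ker, map_sub, sub_eq_zero]
    refine Eq.trans ?_ (sq (T.M.push_cl (alg p A) s j) y)
    refine hx.symm.trans ?_
    exact congrArg _ hy.symm
  obtain ⟨z, hz⟩ := T.torus_rule.1 (alg p A) hA s n ⟨e'⟩ j h2
  refine ⟨z + y, ?_⟩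
  have hz' : T.M.cl (quot (alg p A) s) j z = v - T.M.cl (quot (alg p A) s) j y := hz
  rw [map_add, hz', sub_add_cancel]

end

/-- all algebras of finite type of dimension at most `d` -/
def Theory.TateDim (T : Theory p) (d : ℕ) : Prop :=
  ∀ (A : Type) [CommRing A] [Algebra (ZMod p) A] [Algebra.FiniteType (ZMod p) A],
    ringKrullDim A ≤ d → T.Tate A

theorem Theory.tateX_of_all {d : ℕ} (h : T.TateDim d) (X : T.W.SP) (hX : T.W.dim X ≤ d) :
    T.TateX X :=
  T.pieces d (fun A hA hd => by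
    have : Algebra.FiniteType (ZMod p) A := hA
    exact h A hd) X hX

theorem Theory.all_of_tateX {d : ℕ} (h : ∀ X : T.W.SP, T.W.Finite X → T.W.dim X ≤ d → T.TateX X) :
    T.TateDim d := by
  intro A _ _ hA hd j
  obtain ⟨n, X, g, f, h0, h1, h2⟩ := T.alteration (alg p A) hA d hd j
  have h3 : (T.M.cl (alg p A) j).hom.range = ⊤ := by
    rw [← top_le_iff, ← h2, iSup_le_iff]
    rintro i _ ⟨v, rfl⟩
    obtain ⟨y, rfl⟩ := h (X i) (h0 i).1 (h0 i).2 j v
    exact ⟨g i y, sq (h1 i) y⟩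
  intro v
  have h4 : v ∈ (T.M.cl (alg p A) j).hom.range := by
    rw [h3]
    exact AddSubgroup.mem_top v
  exact h4

end Pool.Agent.H43.TateC
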