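import Pool.Agent.H43.TateC.All

/-! # From trilinear cones to all algebras of dimension at most `d` -/

set_option autoImplicit false

namespace Pool.Agent.H43.TateC

open MvPolynomial

/-- the trilinear form `∑_{(i, a, b) ∈ E} x_i y_a z_b` -/
noncomputable def tri (k : Type) [Field k] {l m n : ℕ} (E : Finset (Fin l × Fin m × Fin n)) :
    MvPolynomial (Fin l ⊕ Fin m ⊕ Fin n) k :=
  ∑ e ∈ E, X (Sum.inl e.1) * X (Sum.inr (Sum.inl e.2.1)) * X (Sum.inr (Sum.inr e.2.2))

section

variable {k : Type} [Field k] {ξ α β : Type}

/-- the homogeneous version of `qE` -/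
noncomputable def qH (k : Type) [Field k] (E : Finset (Option ξ × α × β)) :
    MvPolynomial (Option (Vx ξ α β)) k :=
  ∑ e ∈ E, (e.1.elim (X none) fun i => X (some (Sum.inl i))) *
    X (some (Sum.inr (Sum.inl e.2.1))) * X (some (Sum.inr (Sum.inr e.2.2)))

theorem theta_qH (E : Finset (Option ξ × α × β)) :
    theta (fun i : Vx ξ α β => i.isLeft = true) k (qH k E) = X none * rename some (qE k E) := by
  unfold qH qE
  rw [map_sum, map_sum, Finset.mul_sum]
  refine Finset.sum_congr rfl fun e _ => ?_
  unfold vy vz
  rw [map_mul, map_mul, map_mul, map_mul, rename_X, rename_X, theta_some, theta_some,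
    if_neg (by simp), if_neg (by simp)]
  rcases e with ⟨o | i, a, b⟩
  · simp only [Option.elim_none]
    rw [theta_none]
    have : xo k α β (none : Option ξ) = 1 := rfl
    rw [this, map_one, one_mul, mul_assoc]
  · simp only [Option.elim_some]
    rw [theta_some, if_pos (by simp)]
    have : xo k α β (some i) = X (Sum.inl i) := rfl
    rw [this, rename_X, mul_assoc, mul_assoc, mul_assoc]

end

variable {p : ℕ} [Fact p.Prime] {T : Theory p}

variable (T) in
/-- the Tate property for trilinear cones with `d + 2` variables `x` -/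
def Trilin (d : ℕ) : Prop := ∀ (m n : ℕ) (E : Finset (Fin (d + 2) × Fin m × Fin n)),
  T.Tate (Hyp (tri (ZMod p) E))

theorem tate_qE {d : ℕ} (H : Trilin T d) (α β : Type) [Finite α] [Finite β]
    (E : Finset (Option (Fin (d + 1)) × α × β)) : T.Tate (Hyp (qE (ZMod p) E)) := by
  refine Theory.Tate.of_hom _ (theta_qH E) ?_
  let a : α ≃ Fin (Nat.card α) := Finite.equivFin α
  let b : β ≃ Fin (Nat.card β) := Finite.equivFin β
  let o : Option (Fin (d + 1)) ≃ Fin (d + 2) := (finSuccEquiv (d + 1)).symm
  let c : Option (Fin (d + 1)) × α × β ≃ Fin (d + 2) × Fin (Nat.card α) × Fin (Nat.card β) :=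
    o.prodCongr (a.prodCongr b)
  let e : Fin (d + 2) ⊕ Fin (Nat.card α) ⊕ Fin (Nat.card β) ≃ Option (Vx (Fin (d + 1)) α β) :=
    { toFun := Sum.elim (fun i => (o.symm i).elim none fun i => some (Sum.inl i))
        (Sum.elim (fun i => some (Sum.inr (Sum.inl (a.symm i))))
          fun i => some (Sum.inr (Sum.inr (b.symm i))))
      invFun := fun i => i.elim (Sum.inl (o none))
        (Sum.elim (fun i => Sum.inl (o (some i)))
          (Sum.elim (fun i => Sum.inr (Sum.inl (a i))) fun i => Sum.inr (Sum.inr (b i))))
      left_inv := by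
        rintro (i | i | i)
        · simp only [Sum.elim_inl]
          rcases hi : o.symm i with _ | j
          · simp only [Option.elim_none]
            rw [← hi, Equiv.apply_symm_apply]
          · simp only [Option.elim_some, Sum.elim_inl]
            rw [← hi, Equiv.apply_symm_apply]
        · simp
        · simp
      right_inv := by
        rintro (_ | i | i | i)
        · simp
        · simp
        · simp
        · simp }
  have h1 := (H _ _ (E.map c.toEmbedding)).equiv (renameEquiv (ZMod p) e)
  have h2 : (renameEquiv (ZMod p) e) (tri (ZMod p) (E.map c.toEmbedding)) = qH (ZMod p) E := by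
    rw [renameEquiv_apply]
    unfold tri qH
    rw [map_sum, Finset.sum_map]
    refine Finset.sum_congr rfl fun x _ => ?_
    rw [map_mul, map_mul, rename_X, rename_X, rename_X]
    have e1 : e (Sum.inl (c.toEmbedding x).1) = x.1.elim none fun i => some (Sum.inl i) := by
      change (o.symm (o x.1)).elim none (fun i => some (Sum.inl i)) = _
      rw [Equiv.symm_apply_apply]
    have e2 : e (Sum.inr (Sum.inl (c.toEmbedding x).2.1)) = some (Sum.inr (Sum.inl x.2.1)) := by
      change some (Sum.inr (Sum.inl (a.symm (a x.2.1)))) = _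
      rw [Equiv.symm_apply_apply]
    have e3 : e (Sum.inr (Sum.inr (c.toEmbedding x).2.2)) = some (Sum.inr (Sum.inr x.2.2)) := by
      change some (Sum.inr (Sum.inr (b.symm (b x.2.2)))) = _
      rw [Equiv.symm_apply_apply]
    rw [e1, e2, e3]
    rcases x.1 with _ | i <;> rfl
  rw [h2] at h1
  exact h1

theorem tate_of_tri {d : ℕ} (H : Trilin T d) : T.TateDim d :=
  tate_all (hypers_of d fun f => tate_hyp_x (fun α β _ _ E => tate_qE H α β E) f)

end Pool.Agent.H43.TateC
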