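import Pool.Agent.H43.TateC.Bil
import Pool.Agent.H43.TateC.Tri

/-! # Rings of dimension at most `d`, and domains of dimension `d + 1` with the Tate property -/

set_option autoImplicit false

namespace Pool.Agent.H43.TateC.Rel

open MvPolynomial

variable {p : ℕ} [Fact p.Prime]

theorem dim_loc {R : Type} [CommRing R] (b : R) :
    ringKrullDim (Localization.Away b) ≤ ringKrullDim R := by
  refine Order.krullDim_le_of_strictMono
    (PrimeSpectrum.comap (algebraMap R (Localization.Away b))) ?_
  refine Monotone.strictMono_of_injective ?_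
    (PrimeSpectrum.localization_comap_injective (Localization.Away b) (Submonoid.powers b))
  intro P Q h
  exact Ideal.comap_mono h

/-- the class of rings -/
def Small (T : Theory p) (d : ℕ) (R : Type) [CommRing R] [Algebra (ZMod p) R] : Prop :=
  Algebra.FiniteType (ZMod p) R ∧
    (ringKrullDim R ≤ d ∨ (IsDomain R ∧ ringKrullDim R ≤ (d + 1 : ℕ) ∧ T.Tate R))

theorem dim_quot {R : Type} [CommRing R] [IsDomain R] {b : R} (hb : b ≠ 0) {d : ℕ}
    (h : ringKrullDim R ≤ (d + 1 : ℕ)) : ringKrullDim (R ⧸ Ideal.span {b}) ≤ d := by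
  have h1 := (ringKrullDim_quotient_succ_le_of_nonZeroDivisor
    (mem_nonZeroDivisors_of_ne_zero hb)).trans h
  rcases hx : ringKrullDim (R ⧸ Ideal.span {b}) with _ | x
  · exact bot_le
  · rw [hx] at h1
    rcases x with _ | x
    · exfalso
      have h2 : ((⊤ : ℕ∞) : WithBot ℕ∞) ≤ ((d + 1 : ℕ) : WithBot ℕ∞) := by
        refine le_trans ?_ h1
        exact le_rfl
      have h3 : (⊤ : ℕ∞) ≤ ((d + 1 : ℕ) : ℕ∞) := by exact_mod_cast h2
      exact absurd h3 (not_le.2 (ENat.coe_lt_top _))
    · have h2 : ((x + 1 : ℕ) : WithBot ℕ∞) ≤ ((d + 1 : ℕ) : WithBot ℕ∞) := by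
        refine le_trans ?_ h1
        exact le_rfl
      have h3 : x + 1 ≤ d + 1 := by exact_mod_cast h2
      have h4 : x ≤ d := by omega
      change ((x : ℕ) : WithBot ℕ∞) ≤ _
      exact_mod_cast h4

theorem small_good {T : Theory p} {d : ℕ} (H : T.TateDim d) : Good T (Small T d) where
  ft := fun R _ _ h => h.1
  tate := by
    rintro R _ _ ⟨h1, h2 | h2⟩
    · exact H R h2
    · exact h2.2.2
  quot := by
    rintro R _ _ b ⟨h1, h2⟩
    refine ⟨Algebra.FiniteType.of_surjective (Ideal.Quotient.mkₐ (ZMod p) _)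
      (Ideal.Quotient.mkₐ_surjective _ _), ?_⟩
    rcases h2 with h2 | ⟨h2, h3, h4⟩
    · exact Or.inl ((ringKrullDim_quotient_le _).trans h2)
    · by_cases hb : b = 0
      · subst hb
        have e : R ≃ₐ[ZMod p] R ⧸ Ideal.span {(0 : R)} := by
          refine AlgEquiv.ofAlgHom (mq (ZMod p) 0) (qLift 0 (AlgHom.id (ZMod p) _) rfl) ?_ ?_
          · apply q_ext
            ext x
            rfl
          · ext x
            rfl
        refine Or.inr ⟨?_, ?_, h4.iso e⟩
        · exact e.symm.toMulEquiv.isDomain R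
        · rw [← ringKrullDim_eq_of_ringEquiv e.toRingEquiv]
          exact h3
      · exact Or.inl (dim_quot hb h3)
  loc := by
    rintro R _ _ b ⟨h1, h2⟩
    refine ⟨inferInstance, ?_⟩
    rcases h2 with h2 | ⟨h2, h3, h4⟩
    · exact Or.inl ((dim_loc b).trans h2)
    · by_cases hb : b = 0
      · left
        subst hb
        have h5 : Subsingleton (Localization.Away (0 : R)) := by
          rw [← subsingleton_iff_zero_eq_one]
          have h6 : algebraMap R (Localization.Away (0 : R)) 0 * _ = 1 :=
            IsLocalization.Away.mul_invSelf (0 : R)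
          rw [map_zero, zero_mul] at h6
          exact h6
        rw [ringKrullDim_eq_bot_of_subsingleton]
        exact bot_le
      · exact Or.inr ⟨IsLocalization.isDomain_localization
          (powers_le_nonZeroDivisors_of_noZeroDivisors hb), (dim_loc b).trans h3, h4.loc b⟩

end Pool.Agent.H43.TateC.Rel
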